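import Pool.Agent.Helper59.TS.RowGR
import Pool.Agent.Helper95.TS.RowRw

/-!
# T*: the volume of a row class in units of the grid `1/20`, with `Rw` of `Helper95/TS/RowRw.lean`
-/

set_option autoImplicit false

namespace Pool.Agent.Helper59.TS

open Pool.Agent.Helper84.TS Pool.Agent.Helper23.TS Pool.Agent.Helper36.TS Pool.Agent.Helper44.TS

theorem rw_eq (a b c : ℝ) : Rw a b c = Pool.Agent.Helper95.TS.Rw a b c := by
  unfold Rw Pool.Agent.Helper95.TS.Rw ownv Pool.Agent.Helper95.TS.ownv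
  ring

/-- **The volume of a row class, from `GR`.** -/
theorem val_of_gr {V d p q r : ℝ} (h : Pool.Agent.Helper65.TS.GR V d p q r) :
    96000 * V ≤ Pool.Agent.Helper95.TS.Rw (20 * (p - d)) (20 * (q - d)) (20 * (r - d)) :=
  (rw_of_gr h).trans_eq (rw_eq _ _ _)

/-- the same with `e = 40 d` and `v = 20 (u - d)` -/
theorem val_of_cu {V e v₁ v₂ v₃ : ℝ}
    (h : Pool.Agent.Helper65.TS.GR V (e / 40) (v₁ / 20 + e / 40) (v₂ / 20 + e / 40)
      (v₃ / 20 + e / 40)) : 96000 * V ≤ Pool.Agent.Helper95.TS.Rw v₁ v₂ v₃ := by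
  have h1 := val_of_gr h
  have e1 : ∀ v : ℝ, 20 * (v / 20 + e / 40 - e / 40) = v := fun v => by ring
  rwa [e1, e1, e1] at h1

/-- **The volume of a row class.** -/
theorem val_row {A : Fin 4 → Fin 4 → Option (Fin 4 → ℝ)} {P : Fin 4 → Fin 4 → ℝ}
    (h : OF A) {x j k l : Fin 4} (hn : [x, j, k, l].Nodup) (hx : A x x = some (P x))
    (hw : ∀ m H, m ≠ x → A x m = some H → 2 + H m ≤ 13 / 20) :
    96000 * VV A x ≤ Pool.Agent.Helper95.TS.Rw (20 * (-P x j - (P x x - 1)))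
      (20 * (-P x k - (P x x - 1))) (20 * (-P x l - (P x x - 1))) :=
  (row_vol h hn hx hw).trans_eq (rw_eq _ _ _)

end Pool.Agent.Helper59.TS
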