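import Pool.Agent.Helper90.TS.NEU

/-!
# The boxes of a configuration

The inequalities for the single features which hold for every configuration, and the three variants of
a cell: absent, capped (`D < 11`), free (`11 ≤ D`).
-/

set_option autoImplicit false

namespace Pool.Agent.Helper59.TS.CB

open Pool.Agent.Helper90.TS

variable {c : Cu}

theorem row_nodup : ∀ r m : Fin 4, m ≠ r → ∃ k l, [r, m, k, l].Nodup := by
  decide

/-- an entry of a row -/
theorem v_box (h : c.Ok) {r m : Fin 4} (hr : r = 2 ∨ r = 3) (hm : m ≠ r) :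
    -20 ≤ c.v r m ∧ c.v r m ≤ 20 := by
  have h1 := h.lo r m hr hm
  have h2 := h.hi r m hr hm
  have h3 := h.e0 r hr
  exact ⟨h1, by linarith⟩

/-- the sum of a row -/
theorem e_box (h : c.Ok) {r : Fin 4} (hr : r = 2 ∨ r = 3) : 0 ≤ c.e r ∧ c.e r ≤ 226 / 25 := by
  have h2 := h.e0 2 (Or.inl rfl)
  have h3 := h.e0 3 (Or.inr rfl)
  have h4 := h.es
  rcases hr with rfl | rfl
  · exact ⟨h2, by linarith⟩
  · exact ⟨h3, by linarith⟩

theorem s_box (h : c.Ok) {r j k l : Fin 4} (hr : r = 2 ∨ r = 3) (hn : [r, j, k, l].Nodup) :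
    10 ≤ c.v r j + c.v r k + c.v r l ∧ c.v r j + c.v r k + c.v r l ≤ 20 := by
  have h1 := e_box h hr
  rw [h.vs r j k l hr hn]
  exact ⟨by linarith, by linarith⟩

/-- the sum of two entries of a row -/
theorem p_box (h : c.Ok) {r j k l : Fin 4} (hr : r = 2 ∨ r = 3) (hn : [r, j, k, l].Nodup) :
    -5 ≤ c.v r j + c.v r k ∧ c.v r j + c.v r k ≤ 40 := by
  have hl : l ≠ r := by
    clear * - hn; revert hn; revert r j k l; decide
  have h1 := h.vs r j k l hr hn
  have h2 := h.lo r l hr hl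
  have h3 := h.hi r l hr hl
  have h4 := e_box h hr
  exact ⟨by linarith, by linarith⟩

/-- the variants of a cell: absent, capped, free -/
theorem variants (h : c.Ok) {i m r z : Fin 4} (hi : i = 0 ∨ i = 1) (hn : [i, m, r, z].Nodup) :
    (c.f i m = 0 ∧ c.w i m = -20 ∧ c.X i m r = 0 ∧ c.X i m z = 0 ∧ c.D i m = 40) ∨
      (PrU (c.f i m) (c.w i m) (c.X i m r) (c.X i m z) (c.D i m) ∧ c.D i m < 11) ∨
      (PrU (c.f i m) (c.w i m) (c.X i m r) (c.X i m z) (c.D i m) ∧ 11 ≤ c.D i m) := by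
  rcases h.cell i m r z hi hn with k | k
  · rcases lt_or_ge (c.D i m) 11 with h1 | h1
    · exact Or.inr (Or.inl ⟨k, h1⟩)
    · exact Or.inr (Or.inr ⟨k, h1⟩)
  · exact Or.inl ⟨k.val, k.w, k.X, k.Y, k.D⟩

theorem w_box (h : c.Ok) {i m r z : Fin 4} (hi : i = 0 ∨ i = 1) (hn : [i, m, r, z].Nodup) :
    -20 ≤ c.w i m ∧ c.w i m ≤ 20 := by
  rcases h.cell i m r z hi hn with k | k
  · exact ⟨by linarith [k.w0], k.w1⟩
  · rw [k.w]
    norm_num

theorem X_box (h : c.Ok) {i m r z : Fin 4} (hi : i = 0 ∨ i = 1) (hn : [i, m, r, z].Nodup) :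
    0 ≤ c.X i m r ∧ c.X i m r ≤ 40 := by
  rcases h.cell i m r z hi hn with k | k
  · exact ⟨k.X0.le, by linarith [k.sum, k.w1, k.Y0, k.D0]⟩
  · rw [k.X]
    norm_num

theorem D_box (h : c.Ok) {i m r z : Fin 4} (hi : i = 0 ∨ i = 1) (hn : [i, m, r, z].Nodup) :
    0 ≤ c.D i m ∧ c.D i m ≤ 40 := by
  rcases h.cell i m r z hi hn with k | k
  · exact ⟨k.D0, by linarith [k.D1]⟩
  · rw [k.D]
    norm_num

end Pool.Agent.Helper59.TS.CB
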