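import Pool.Agent.Helper90.TS.N2Asm
import Pool.Agent.Helper95.TS.Slots2

/-!
# Two far cells of the two weak classes in one row column

`F = A i x`, `G = A j x`, row `y`. One of them can be dropped.
-/

set_option autoImplicit false

namespace Pool.Agent.Helper59.TS

open Pool.Agent.Helper84.TS Pool.Agent.Helper23.TS Pool.Agent.Helper36.TS Pool.Agent.Helper44.TS
  Pool.Agent.Helper74.TS Pool.Agent.Helper90.TS

/-- the data of a far cell in real variables: `w`, the component `a` of the row, the component `b` of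
the other weak class, the height `d` -/
structure Fd (f w a b d : ℝ) : Prop where
  w0 : 0 < w
  w1 : w ≤ 1
  a0 : 0 < a
  b0 : 0 < b
  d0 : 0 ≤ d
  d1 : d < 1
  sum : a + b = 1 + w - d
  al : a < 1 + w - d
  bl : b < 1 + w - d
  vol : f = vl w a b

section

variable {A : Fin 4 → Fin 4 → Option (Fin 4 → ℝ)} {P : Fin 4 → Fin 4 → ℝ} {i j x y : Fin 4}

theorem fd_far (R : Rows A P i j x y) {F : Fin 4 → ℝ} (hF : A i x = some F) :
    Fd (fcl i F) (2 + F x) (Pool.Agent.Helper90.TS.cmp i j F) (Pool.Agent.Helper90.TS.cmp i y F) (F i - 1) := by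
  have hn : [i, x, j, y].Nodup := by
    have := R.hn
    clear * - this; revert this; revert i j x y; decide
  have hxi : x ≠ i := (nodup_ne hn).1
  have hc := R.of.cell i x F hF
  have hf := R.of.far i x F hxi hF
  obtain ⟨b1, b2, b3, b4, b5, b6, b7, b8, b9⟩ := far_bounds hc hn hf.le
  have h := wk_far hc hn hf
  refine ⟨b1, b2, ?_, ?_, b3, b4, ?_, ?_, ?_, ?_⟩ <;> unfold Pool.Agent.Helper90.TS.cmp
  · linarith
  · linarith
  · linarith
  · linarith
  · linarith
  · rw [h.vol, max_eq_right (by linarith : 2 + F x - 1 ≤ 0), vl,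
      show F i - 1 - (F y + (F i - 1)) = 2 + F x - (1 - (F j + (F i - 1))) by linarith,
      show F i - 1 - (F j + (F i - 1)) = 2 + F x - (1 - (F y + (F i - 1))) by linarith]
    ring

/-- **The relation of the two cells.** -/
theorem conf_rel (R : Rows A P i j x y) {F G : Fin 4 → ℝ} (hF : A i x = some F)
    (hG : A j x = some G) :
    Pool.Agent.Helper90.TS.cmp i y F ≤ (G j - 1) - 1 + max (2 + F x) (2 + G x) ∨
      Pool.Agent.Helper90.TS.cmp j y G ≤ (F i - 1) - 1 + max (2 + F x) (2 + G x) := by
  have hn : [i, x, j, y].Nodup := by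
    have := R.hn
    clear * - this; revert this; revert i j x y; decide
  have hij : i ≠ j := by
    clear * - hn; revert hn; revert i j x y; decide
  have hs : Sep F G := sep_of R.of hF hG hij
  have h := wk_two (R.of.cell i x F hF) (R.of.cell j x G hG) hn hs
  have hm : min (2 - (2 + F x)) (2 - (2 + G x)) = 2 - max (2 + F x) (2 + G x) := by
    rcases le_total (F x) (G x) with h1 | h1
    · rw [max_eq_right (by linarith), min_eq_right (by linarith)]
    · rw [max_eq_left (by linarith), min_eq_left (by linarith)]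
  rw [hm] at h
  unfold Pool.Agent.Helper90.TS.cmp
  rcases le_total (G y) (F y) with h1 | h1
  · rw [max_eq_left h1] at h
    left
    linarith
  · rw [max_eq_right h1] at h
    right
    linarith

end

/-- the volume under the bound `β` of the second component, `β ≤ A` -/
theorem vl_le_beta {w A B β : ℝ} (w0 : 0 < w) (A0 : 0 ≤ A) (B0 : 0 ≤ B) (hs : w ≤ A + B)
    (hB : B ≤ β) (hA : β ≤ A) : vl w A B ≤ β * (A + β) ^ 2 / 4 - β ^ 3 / 3 := by
  refine (vl_mono_r w0.le A0 B0 hs hB).trans ?_
  have b0 : 0 ≤ β := B0.trans hB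
  unfold vl
  rcases le_total w β with h1 | h1
  · rw [max_eq_right (by linarith : w - A ≤ 0), max_eq_right (by linarith : w - β ≤ 0)]
    -- `w A β - w³/3` is increasing up to `w = β`
    have h2 : w * A * β - w ^ 3 / 3 ≤ β * A * β - β ^ 3 / 3 := by
      have h3 : 0 ≤ (β - w) * (A * β - (β ^ 2 + β * w + w ^ 2) / 3) := by
        refine mul_nonneg (by linarith) ?_
        nlinarith [mul_nonneg b0 (by linarith : 0 ≤ A - β), mul_nonneg b0 (by linarith : 0 ≤ β - w),
          mul_nonneg w0.le (by linarith : 0 ≤ β - w)]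
      nlinarith
    nlinarith [mul_nonneg b0 (sq_nonneg (A - β))]
  · rw [max_eq_left (by linarith : 0 ≤ w - β)]
    rcases le_total w A with h2 | h2
    · rw [max_eq_right (by linarith : w - A ≤ 0)]
      nlinarith [mul_nonneg b0 (sq_nonneg (A + β - 2 * w))]
    · rw [max_eq_left (by linarith : 0 ≤ w - A)]
      have h3 : w ≤ A + β := by linarith
      -- `f = w A β - w³/3 + (w-A)³/3 + (w-β)³/3`, `w ∈ [A, A+β]`: decreasing in `w`
      have h4 : (w - A) ^ 3 ≤ (w - A) * β ^ 2 := by
        have : (w - A) ^ 2 ≤ β ^ 2 := pow_le_pow_left₀ (by linarith) (by linarith) 2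
        nlinarith [mul_le_mul_of_nonneg_left this (by linarith : 0 ≤ w - A)]
      nlinarith [mul_nonneg b0 (sq_nonneg (A - β)), mul_nonneg b0 (sq_nonneg (w - A)),
        mul_nonneg (by linarith : 0 ≤ w - A) (by linarith : 0 ≤ A - β),
        mul_nonneg (mul_nonneg b0 (by linarith : 0 ≤ w - A)) (by linarith : 0 ≤ A - β),
        mul_nonneg (mul_nonneg b0 (by linarith : 0 ≤ w - A)) (by linarith : 0 ≤ A + β - w)]

end Pool.Agent.Helper59.TS
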