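import Pool.Agent.Helper59.TS.ConfReal
import Pool.Agent.Helper95.TS.PiecesOf

/-!
# The column lemma with two far cells of the two weak classes
-/

set_option autoImplicit false

namespace Pool.Agent.Helper59.TS

open Pool.Agent.Helper84.TS Pool.Agent.Helper23.TS Pool.Agent.Helper36.TS Pool.Agent.Helper44.TS
  Pool.Agent.Helper74.TS Pool.Agent.Helper90.TS Pool.Agent.Helper95.TS Pool.Agent.Helper51.TS

section own

variable {f w al be e d u A δ : ℝ}

/-- the own term of a small height: the excess over `h0` -/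
theorem mm_small {w δ : ℝ} (w0 : 0 ≤ w) (hδ : δ ≤ 11 / 20) : w * mm w δ ^ 2 ≤ 1 / 27000 := by
  rcases le_total δ ((1 + w) / 2) with h | h
  · rw [mm_zero h]
    norm_num
  · have e : mm w δ = δ - (1 + w) / 2 := max_eq_left (by linarith)
    have h1 : 0 ≤ mm w δ := mm_nonneg w δ
    have h2 : mm w δ ≤ 1 / 20 - w / 2 := by rw [e]; linarith
    have h3 : mm w δ ^ 2 ≤ (1 / 20 - w / 2) ^ 2 := pow_le_pow_left₀ h1 h2 2
    have h4 := mul_le_mul_of_nonneg_left h3 w0
    have h5 : w * (1 / 20 - w / 2) ^ 2 ≤ 1 / 27000 := by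
      nlinarith [mul_nonneg (by linarith : (0 : ℝ) ≤ 1 / 15 - w / 4) (sq_nonneg (w - 1 / 30)),
        sq_nonneg (w - 1 / 30)]
    linarith

/-- **The single upper slot, with the own cell**, sharp own term. -/
theorem own_O0 (h : OwnC f w al be e d u) (d0 : 0 ≤ d) (d1 : d ≤ 113 / 500) (lo : -(1 - d) ≤ u)
    (hcap : u ≤ 1 - A + d) (hδ0 : 0 ≤ δ) (hδ : δ ≤ 11 / 20) (alt : al ≤ δ ∨ A ≤ e) :
    sx (43 / 50) d u + f ≤ (43 / 50) ^ 2 / 2 + 3 / 5 * d + net0 A δ := by
  rcases lt_or_ge A 1 with hA | hA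
  · have := own_O h d0 d1 lo hcap hδ alt
    rw [oT, if_neg (by linarith)] at this
    rw [net0_lt hA]
    linarith
  · rw [net0_ge hA]
    have w0 := h.w0
    have w1 := h.w1
    have hu := h.cap d0
    have hu1 : u ≤ 1 := by linarith
    have hal : al ≤ δ := alt.resolve_right (by linarith [h.e1])
    have hm := mm_small (δ := δ) w0.le hδ
    rcases le_total w (A - 1) with hw | hw
    · have h1 := LO_le d0 d1 lo hu1 hcap
      have h2 := vl_own w0.le h.al0 h.be0 h.s0 (by linarith [h.he, h.e0]) hal hδ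
      have h3 := h0_mono w0.le hw hδ0 hδ
      linarith [h.vol]
    · have h1 := own_up h d0 d1 lo hδ hal (by linarith : 0 ≤ A - 1) hw
      have h2 := LO_le (A := A) (u := d - (A - 1)) d0 d1 (by linarith) (by linarith) (by linarith)
      linarith

end own

section

variable {A : Fin 4 → Fin 4 → Option (Fin 4 → ℝ)} {P : Fin 4 → Fin 4 → ℝ} {i j x y : Fin 4}

/-- **the `O` column under the cap of the class cell `F`**, sharp own term -/
theorem col_net0 (R : Rows A P i j x y) {F : Fin 4 → ℝ} (hF : A i x = some F)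
    (k : KA P i x y j F) (hδ : F i - 1 < 11 / 20) :
    col1 A P (43 / 50) x y ≤
      1849 / 5000 + 3 / 5 * (P y y - 1) + net0 (Pool.Agent.Helper90.TS.cmp i j F) (F i - 1) := by
  have hn0 := R.hn
  have hn : [i, x, y, j].Nodup := by
    clear * - hn0; revert hn0; revert i j x y; decide
  have hk := k hδ
  have hxi : x ≠ i := by
    clear * - hn; revert hn; revert i j x y; decide
  have hxy : x ≠ y := by
    clear * - hn; revert hn; revert i j x y; decide
  have hn' : [y, x, i, j].Nodup := by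
    clear * - hn; revert hn; revert i j x y; decide
  have h := R.of
  have hδ0 := (wk_far (h.cell i x F hF) hn (h.far i x F hxi hF)).d0
  obtain ⟨d0, -, lo, hi⟩ := mr_main h R.hy hxy
  have hc : -P y x ≤ 1 - Pool.Agent.Helper90.TS.cmp i j F + (P y y - 1) := by
    unfold Helper90.TS.cmp
    linarith
  have key : sx (43 / 50) (P y y - 1) (-P y x) + fo y (A y x) ≤
      (43 / 50) ^ 2 / 2 + 3 / 5 * (P y y - 1) + net0 (Pool.Agent.Helper90.TS.cmp i j F) (F i - 1) := by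
    rcases hH : A y x with _ | H
    · have h1 := LO_le d0 R.ry.d1 lo hi hc
      have h2 : -LO (Pool.Agent.Helper90.TS.cmp i j F) ≤ net0 (Pool.Agent.Helper90.TS.cmp i j F) (F i - 1) := by
        rcases lt_or_ge (Pool.Agent.Helper90.TS.cmp i j F) 1 with g | g
        · rw [net0_lt g]
        · rw [net0_ge g]
          have k1 := h0_mono (w := 0) (y := Pool.Agent.Helper90.TS.cmp i j F - 1) le_rfl (by linarith) hδ0 hδ.le
          rw [h0_zero hδ0] at k1
          linarith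
      simp only [fo]
      linarith
    · exact own_O0 (own_data h R.hy hH hn' (R.wy x H hxy hH)) d0 R.ry.d1 lo hc hδ0 hδ.le
        (own_alt h hF hH hn)
  unfold col1
  linarith

/-- the gain of the remaining cell, with the five forms -/
def GainC' (w A B g : ℝ) : Prop :=
  GainO w A B g ∨ (1 + w - A - B < 11 / 20 ∧
    ((0 ≤ 2 * w - A - B ∧ A ≤ 2 / 5 ∧ g ≤ vl w A B - LO A + 1 / 1000) ∨
    (0 ≤ 2 * w - A - B ∧ A ≤ 2 / 5 ∧ g ≤ vl w A B + 3 / 25 * (2 * w - A - B) - 153 / 5000) ∨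
    (0 ≤ 2 * w - A - B ∧ 2 / 5 ≤ A ∧ A ≤ 1 ∧ g ≤ vl w A B +
      ((2 * w - A - B) * (2 * w - A - B + A) ^ 2 / 4 - (2 * w - A - B) ^ 3 / 3) + 1 / 1000 - LO A) ∨
    (0 ≤ 2 * w - A - B ∧ 1 ≤ A ∧ g ≤ vl w A B - LO A + hown (A - 1) (1 + w - A - B) +
      (2 * w - A - B) * (9 / 10 * A - 199 / 500)) ∨
    g ≤ vl w A B - 57 / 125 + 7 / 10 * (1 + w - A - B)))

/-- the cell `F` is dropped -/
theorem drop_F (R : Rows A P i j x y) {F G : Fin 4 → ℝ} (hF : A i x = some F)
    (hG : A j x = some G) (kF : KA P i x y j F) (kG : KA P j x y i G)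
    (hδF : F i - 1 < 11 / 20) (hδG : G j - 1 < 11 / 20)
    (hb : Pool.Agent.Helper90.TS.cmp i y F ≤ (G j - 1) - 1 + max (2 + F x) (2 + G x)) :
    ∃ g, GainC' (2 + G x) (Pool.Agent.Helper90.TS.cmp j i G) (Pool.Agent.Helper90.TS.cmp j y G) g ∧
      col1 A P (43 / 50) x y + fcl i F + fcl j G ≤ 1849 / 5000 + 3 / 5 * (P y y - 1) + g := by
  have dF := fd_far R hF
  have dG := fd_far R.swap hG
  have cF := col_net0 R hF kF hδF
  have cG := col_net R.swap hG kG hδG
  unfold net at cG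
  obtain ⟨w, hw⟩ : ∃ w, w = 2 + F x := ⟨_, rfl⟩
  obtain ⟨W, hW⟩ : ∃ W, W = 2 + G x := ⟨_, rfl⟩
  obtain ⟨a, ha⟩ : ∃ a, a = Pool.Agent.Helper90.TS.cmp i j F := ⟨_, rfl⟩
  obtain ⟨b, hb'⟩ : ∃ b, b = Pool.Agent.Helper90.TS.cmp i y F := ⟨_, rfl⟩
  obtain ⟨a', ha'⟩ : ∃ a', a' = Pool.Agent.Helper90.TS.cmp j i G := ⟨_, rfl⟩
  obtain ⟨b', hb''⟩ : ∃ b', b' = Pool.Agent.Helper90.TS.cmp j y G := ⟨_, rfl⟩
  obtain ⟨δ, hδ⟩ : ∃ δ, δ = F i - 1 := ⟨_, rfl⟩
  obtain ⟨D, hD⟩ : ∃ D, D = G j - 1 := ⟨_, rfl⟩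
  obtain ⟨f, hf⟩ : ∃ f, f = fcl i F := ⟨_, rfl⟩
  obtain ⟨g, hg⟩ : ∃ g, g = fcl j G := ⟨_, rfl⟩
  rw [← hw, ← ha, ← hb', ← hδ, ← hf] at dF
  rw [← hW, ← ha', ← hb'', ← hD, ← hg] at dG
  rw [← ha, ← hδ] at cF
  rw [← ha', ← hD] at cG
  rw [← hb', ← hD, ← hw, ← hW] at hb
  rw [← hW, ← ha', ← hb'', ← hf, ← hg]
  rw [← hδ] at hδF
  rw [← hD] at hδG
  clear hw hW ha hb' ha' hb'' hδ hD hf hg
  have gv := dG.vol
  have gs := dG.sum
  have eD : 1 + W - a' - b' = D := by linarith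
  have eβ : 2 * W - a' - b' = D - 1 + W := by linarith
  unfold GainC'
  rw [eD, eβ]
  rcases lt_or_ge W w with h1 | h1
  · -- `(c4)`
    rw [max_eq_left h1.le] at hb
    have k := c4 dF hδF hδG (by linarith)
    exact ⟨g + (-57 / 125 + 7 / 10 * D), Or.inr ⟨hδG, Or.inr (Or.inr (Or.inr (Or.inr
      (by rw [gv]; linarith))))⟩, by linarith⟩
  · rw [max_eq_right h1] at hb
    have β0 : 0 ≤ D - 1 + W := by linarith [dF.b0]
    have W1 := dG.w1
    have β1 : D - 1 + W ≤ 11 / 20 := by linarith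
    rcases le_or_gt a' (2 / 5) with h2 | h2
    · rcases c1 dF hδF dG.a0 h2 hb β1 with (k | k) | k | k
      · exact ⟨g + (-LO a' + 1 / 1000), Or.inr ⟨hδG, Or.inl ⟨β0, h2, by rw [gv]; linarith⟩⟩,
          by linarith⟩
      · exact ⟨g + (3 / 25 * (D - 1 + W) - 153 / 5000), Or.inr ⟨hδG, Or.inr (Or.inl ⟨β0, h2,
          by rw [gv]; linarith⟩)⟩, by linarith⟩
      · rw [oT, if_neg (by linarith)] at cG
        exact ⟨g + (-LO a' + 1 / 1000), Or.inr ⟨hδG, Or.inl ⟨β0, h2, by rw [gv]; linarith⟩⟩,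
          by linarith⟩
      · rw [oT, if_neg (by linarith)] at cG
        exact ⟨g + (3 / 25 * (D - 1 + W) - 153 / 5000), Or.inr ⟨hδG, Or.inr (Or.inl ⟨β0, h2,
          by rw [gv]; linarith⟩)⟩, by linarith⟩
    · rcases lt_or_ge a' 1 with h3 | h3
      · rw [oT, if_neg (by linarith)] at cG
        refine ⟨g + ((D - 1 + W) * (D - 1 + W + a') ^ 2 / 4 - (D - 1 + W) ^ 3 / 3) + 1 / 1000 - LO a',
          Or.inr ⟨hδG, Or.inr (Or.inr (Or.inl ⟨β0, h2.le, h3.le, by rw [gv]⟩))⟩, ?_⟩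
        rcases c2 dF hδF h2.le h3.le hb β1 with k | k <;> linarith
      · rw [oT, if_pos h3] at cG
        obtain ⟨z, hz⟩ : ∃ z, z = a' - 1 := ⟨_, rfl⟩
        have ez : a' = 1 + z := by linarith
        have e3 : (D - 1 + W) * (9 / 10 * a' - 199 / 500) =
            (D - 1 + W) * (251 / 500 + 9 / 10 * z) := by rw [ez]; ring
        refine ⟨g - LO a' + hown (a' - 1) D + (D - 1 + W) * (9 / 10 * a' - 199 / 500),
          Or.inr ⟨hδG, Or.inr (Or.inr (Or.inr (Or.inl ⟨β0, h3, by rw [gv]⟩)))⟩, ?_⟩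
        rw [e3, ← hz]
        rw [← hz] at cG
        have k := c3 (z := z) dF (by linarith) (by linarith [dG.al]) hb (by linarith) hδG
        rw [← ez] at k
        rcases k with k | k <;> linarith

/-- **The column lemma with two far cells.** -/
theorem colO2' : ColO2 GainC' := by
  intro A P i j x y R F G hF hG kF kG
  have hn0 := R.hn
  have hnF : [i, x, y, j].Nodup := by
    clear * - hn0; revert hn0; revert i j x y; decide
  have hnG : [j, x, y, i].Nodup := by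
    clear * - hn0; revert hn0; revert i j x y; decide
  have vF := far_vl R.of hF hnF
  have eF := far_ht R.of hF hnF
  have vG := far_vl R.of hG hnG
  have eG := far_ht R.of hG hnG
  by_cases hδF : F i - 1 < 11 / 20
  · by_cases hδG : G j - 1 < 11 / 20
    · rcases conf_rel R hF hG with h | h
      · obtain ⟨g, g1, g2⟩ := drop_F R hF hG kF kG hδF hδG h
        exact ⟨0, g, Or.inl rfl, Or.inr g1, by linarith⟩
      · rw [max_comm] at h
        obtain ⟨g, g1, g2⟩ := drop_F R.swap hG hF kG kF hδG hδF h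
        exact ⟨g, 0, Or.inr g1, Or.inl rfl, by linarith⟩
    · obtain ⟨g, g1, g2⟩ := col_O1 R hF kF
      refine ⟨g, fcl j G, Or.inr (Or.inl g1), Or.inr (Or.inl (Or.inl ⟨?_, vG.le⟩)), by linarith⟩
      rw [← eG]
      exact not_lt.1 hδG
  · obtain ⟨g, g1, g2⟩ := col_O1 R.swap hG kG
    refine ⟨fcl i F, g, Or.inr (Or.inl (Or.inl ⟨?_, vF.le⟩)), Or.inr (Or.inl g1), by linarith⟩
    rw [← eF]
    exact not_lt.1 hδF

/-- the column lemma for every predicate of the gains that contains the five forms -/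
theorem colO2_of {GC : ℝ → ℝ → ℝ → ℝ → Prop} (h : ∀ w A B g, GainC' w A B g → GC w A B g) :
    ColO2 GC := by
  intro A P i j x y R F G hF hG kF kG
  obtain ⟨gF, gG, h1, h2, h3⟩ := colO2' A P i j x y R F G hF hG kF kG
  exact ⟨gF, gG, h1.imp id (h _ _ _ _), h2.imp id (h _ _ _ _), h3⟩

end

end Pool.Agent.Helper59.TS
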