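import Pool.Agent.Helper59.TS.Conf
import Pool.Agent.Helper51.TS.Net

/-!
# The inequalities of the column with two far cells
-/

set_option autoImplicit false

namespace Pool.Agent.Helper59.TS

open Pool.Agent.Helper36.TS Pool.Agent.Helper74.TS Pool.Agent.Helper90.TS Pool.Agent.Helper95.TS
  Pool.Agent.Helper51.TS

/-! ### Polynomials -/

/-- `(c4)`, `a < 1` -/
theorem p4a {t s : ℝ} (h1 : 9 / 20 ≤ t) (s0 : 0 ≤ s) (h3 : t + s ≤ 11 / 20) :
    0 ≤ -(91967 / 1000000) + 3 / 10 * t + s * (5 / 16 - t) + 17 / 50 * s ^ 2 - t ^ 3 / 3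
      - s ^ 3 / 3 := by
  have s1 : s ≤ 1 / 10 := by linarith
  have k1 : s ^ 3 ≤ 1 / 10 * s ^ 2 := by
    nlinarith [mul_nonneg (sq_nonneg s) (by linarith : 0 ≤ 1 / 10 - s)]
  have k2 : t ^ 3 ≤ 29 / 20 * t ^ 2 - 279 / 400 * t + 891 / 8000 := by
    nlinarith [mul_nonneg (sq_nonneg (t - 9 / 20)) (by linarith : 0 ≤ 11 / 20 - t)]
  nlinarith [mul_nonneg s0 (by linarith : 0 ≤ t - 9 / 20),
    mul_nonneg s0 (by linarith : 0 ≤ 1 / 10 - s),
    mul_nonneg (by linarith : 0 ≤ t - 9 / 20) (by linarith : 0 ≤ 11 / 20 - t - s),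
    mul_nonneg s0 (by linarith : 0 ≤ 11 / 20 - t - s)]

/-- `(c4)`, `1 ≤ a`, `z ≤ d` -/
theorem p4b {z d : ℝ} (z0 : 0 ≤ z) (h1 : 9 / 20 ≤ z + d) (h2 : z ≤ d) (h3 : d ≤ 11 / 20) :
    1 / 27000 ≤ -(91967 / 1000000) + 3 / 10 * d - 1 / 80 * z + z ^ 2 * (67 / 50 - 2 * d)
      - d ^ 3 / 3 := by
  have d0 : 9 / 40 ≤ d := by linarith
  rcases le_total d (9 / 20) with h | h
  · have k0 : 0 ≤ z - (9 / 20 - d) := by linarith
    have k1 : 0 ≤ (z - (9 / 20 - d)) * ((z + (9 / 20 - d)) * (67 / 50 - 2 * d)) :=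
      mul_nonneg k0 (mul_nonneg (by linarith) (by linarith))
    have k : 0 ≤ (z - (9 / 20 - d)) * ((9 / 20 - d) * (67 / 50 - 2 * d)) :=
      mul_nonneg k0 (mul_nonneg (by linarith) (by linarith))
    have k3 : 0 ≤ (z - (9 / 20 - d)) ^ 2 * (67 / 50 - 2 * d) :=
      mul_nonneg (sq_nonneg _) (by linarith)
    nlinarith [mul_nonneg (by linarith : 0 ≤ d - 9 / 40) (by linarith : 0 ≤ 9 / 20 - d),
      mul_nonneg (mul_nonneg (by linarith : 0 ≤ d - 9 / 40) (by linarith : 0 ≤ 9 / 20 - d))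
        (by linarith : 0 ≤ d), sq_nonneg (z - 1 / 10), sq_nonneg (d - 13 / 40)]
  · have k : 0 ≤ (z - 1 / 40) ^ 2 * (67 / 50 - 2 * d) := mul_nonneg (sq_nonneg _) (by linarith)
    nlinarith [mul_nonneg (by linarith : 0 ≤ d - 9 / 20) (by linarith : 0 ≤ 11 / 20 - d),
      mul_nonneg (mul_nonneg (by linarith : 0 ≤ d - 9 / 20) (by linarith : 0 ≤ 11 / 20 - d))
        (by linarith : 0 ≤ d), mul_nonneg (sq_nonneg z) (by linarith : 0 ≤ 11 / 20 - d),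
      sq_nonneg (z - 1 / 40)]

/-- `(c4)`, `1 ≤ a ≤ 3/2`, `d ≤ z` -/
theorem p4c {z d : ℝ} (d0 : 0 ≤ d) (h1 : 9 / 20 ≤ z + d) (h2 : d ≤ z) (h4 : z ≤ 1 / 2) :
    (1 + z) * (1 - (z + d)) - 1 / 3 + (z + d) ^ 3 / 3
      - (17 / 50 * (1 + z) ^ 2 + 3 / 400 * (1 + z) - 21 / 1250) + (d * z - d ^ 3 / 3) + 1 / 27000
      ≤ 61 / 250 - 7 / 10 * (z + d) := by
  have z0 : 9 / 40 ≤ z := by linarith
  nlinarith [mul_nonneg d0 (by linarith : 0 ≤ z - d), mul_nonneg d0 (by linarith : 0 ≤ 1 / 2 - z),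
    mul_nonneg (by linarith : 0 ≤ z - 9 / 40) (by linarith : 0 ≤ 1 / 2 - z),
    mul_nonneg (by linarith : 0 ≤ z - 9 / 40) (by linarith : 0 ≤ z + d - 9 / 20),
    mul_nonneg (mul_nonneg d0 (by linarith : 0 ≤ 1 / 2 - z)) (by linarith : 0 ≤ z),
    mul_nonneg (mul_nonneg d0 (by linarith : 0 ≤ z - d)) (by linarith : 0 ≤ z),
    mul_nonneg (mul_nonneg (by linarith : 0 ≤ z - 9 / 40) (by linarith : 0 ≤ 1 / 2 - z))
      (by linarith : 0 ≤ z)]

/-- `(c4)`, `3/2 ≤ a` -/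
theorem p4d {z d : ℝ} (d0 : 0 ≤ d) (h4 : 1 / 2 ≤ z) (h5 : z + d ≤ 1) :
    (1 + z) * (1 - (z + d)) - 1 / 3 + (z + d) ^ 3 / 3
      - (19 / 25 + 24 / 25 * (1 + z - 3 / 2)) + (d * z - d ^ 3 / 3) + 1 / 27000
      ≤ 61 / 250 - 7 / 10 * (z + d) := by
  nlinarith [mul_nonneg d0 (by linarith : 0 ≤ z - 1 / 2),
    mul_nonneg d0 (by linarith : 0 ≤ 1 - z - d),
    mul_nonneg (by linarith : 0 ≤ z - 1 / 2) (by linarith : 0 ≤ 1 - z - d),
    mul_nonneg (mul_nonneg d0 (by linarith : 0 ≤ 1 - z - d)) (by linarith : 0 ≤ z),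
    mul_nonneg (mul_nonneg (by linarith : 0 ≤ z - 1 / 2) (by linarith : 0 ≤ 1 - z - d))
      (by linarith : 0 ≤ z),
    mul_nonneg (mul_nonneg (by linarith : 0 ≤ z - 1 / 2) (by linarith : 0 ≤ 1 - z - d)) d0]

/-- `(c3)`, `a ≤ A` -/
theorem p3a {z b : ℝ} (z0 : 0 ≤ z) (b0 : 0 ≤ b) (b1 : b ≤ 11 / 20) (h : z + b ≤ 1) :
    (1 + z + b) ^ 2 / 4 - b ^ 2 / 3 ≤ 251 / 500 + 9 / 10 * z := by
  nlinarith [mul_nonneg z0 b0, mul_nonneg b0 (by linarith : 0 ≤ 11 / 20 - b),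
    mul_nonneg z0 (by linarith : 0 ≤ 1 - z - b), mul_nonneg z0 (by linarith : 0 ≤ 11 / 20 - b)]

/-- the defect `E` -/
theorem p3E {z b d : ℝ} (z0 : 0 ≤ z) (b0 : 0 ≤ b) (b1 : b ≤ 11 / 20) (d0 : 0 ≤ d)
    (h : 9 / 10 * z ≤ 249 / 500 - d - b ^ 2 / 3) :
    1 / 500 ≤ 251 / 500 + 9 / 10 * z - (z + b + d) * (1 - d) + b ^ 2 / 3 := by
  rcases le_total (1 / 10) d with h1 | h1
  · nlinarith [mul_nonneg z0 (by linarith : 0 ≤ d - 1 / 10), sq_nonneg (d - (1 - b) / 2),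
      mul_nonneg b0 (by linarith : 0 ≤ 11 / 20 - b)]
  · have k := mul_le_mul_of_nonneg_left h (by linarith : 0 ≤ 1 / 10 - d)
    nlinarith [mul_nonneg (by linarith : 0 ≤ 1 / 10 - d) (sq_nonneg b),
      mul_nonneg b0 (by linarith : 0 ≤ 11 / 20 - b), mul_nonneg d0 (by linarith : 0 ≤ 1 / 10 - d),
      mul_nonneg d0 b0]

/-- `(K)` for `d ≤ b` -/
theorem p3K1 {d E : ℝ} (d1 : d ≤ 1 / 2) (hE : 1 / 500 ≤ E) : 1 / 27000 ≤ E * (11 / 16 - d) := by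
  nlinarith [mul_nonneg (by linarith : 0 ≤ E - 1 / 500) (by linarith : 0 ≤ 1 / 2 - d)]

theorem p3K2b {z b d : ℝ} (z0 : 0 ≤ z) (b0 : 0 ≤ b) (hbd : b ≤ d)
    (h : 9 / 10 * z = 249 / 500 - d) :
    0 ≤ (251 / 500 + 9 / 10 * z - (z + b + d) * (1 - d) + b ^ 2 / 3) * (11 / 16 - d)
      - (z * (1 + z - d - b) * (d - b)) * (1 - d) - 1 / 27000 := by
  have hd : d = 249 / 500 - 9 / 10 * z := by linarith
  subst hd
  have k0 : 0 ≤ 249 / 500 - 9 / 10 * z - b := by linarith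
  nlinarith [mul_nonneg z0 b0, mul_nonneg b0 k0, mul_nonneg z0 k0,
    mul_nonneg (mul_nonneg z0 b0) k0,
    mul_nonneg (mul_nonneg z0 k0) k0, mul_nonneg (mul_nonneg z0 b0) b0,
    mul_nonneg (mul_nonneg z0 z0) k0, mul_nonneg (mul_nonneg z0 z0) b0,
    mul_nonneg (mul_nonneg (mul_nonneg z0 z0) z0) b0,
    mul_nonneg (mul_nonneg (mul_nonneg z0 z0) z0) k0,
    mul_nonneg (mul_nonneg (mul_nonneg z0 z0) b0) k0,
    mul_nonneg (mul_nonneg (mul_nonneg z0 z0) k0) k0,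
    mul_nonneg (mul_nonneg (mul_nonneg z0 b0) b0) k0,
    mul_nonneg (mul_nonneg (mul_nonneg z0 b0) k0) k0,
    mul_nonneg (mul_nonneg b0 b0) k0, mul_nonneg (mul_nonneg b0 k0) k0,
    mul_nonneg (mul_nonneg k0 k0) k0]

theorem p3K2a {b d : ℝ} (b0 : 0 ≤ b) (b1 : b ≤ 11 / 20) (d1 : d ≤ 1 / 2) :
    0 ≤ (251 / 500 - (b + d) * (1 - d) + b ^ 2 / 3) * (11 / 16 - d) - 1 / 27000 := by
  have h1 : 1 / 500 ≤ 251 / 500 - (b + d) * (1 - d) + b ^ 2 / 3 := by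
    nlinarith [sq_nonneg (d - (1 - b) / 2), mul_nonneg b0 (by linarith : 0 ≤ 11 / 20 - b)]
  nlinarith [mul_nonneg (by linarith : 0 ≤ 251 / 500 - (b + d) * (1 - d) + b ^ 2 / 3 - 1 / 500)
    (by linarith : 0 ≤ 1 / 2 - d)]

/-- `(K)` for `b ≤ d` -/
theorem p3K2 {z b d : ℝ} (z0 : 0 ≤ z) (b0 : 0 ≤ b) (b1 : b ≤ 11 / 20) (hbd : b ≤ d)
    (d1 : d ≤ 1 / 2) (h : 9 / 10 * z ≤ 249 / 500 - d) :
    0 ≤ (251 / 500 + 9 / 10 * z - (z + b + d) * (1 - d) + b ^ 2 / 3) * (11 / 16 - d)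
      - (z * (1 + z - d - b) * (d - b)) * (1 - d) - 1 / 27000 := by
  have K0 := p3K2a b0 b1 d1
  rcases eq_or_lt_of_le z0 with h0 | h0
  · rw [← h0]
    nlinarith
  · obtain ⟨m, hm⟩ : ∃ m, m = z + (249 / 500 - d - 9 / 10 * z) * (10 / 9) := ⟨_, rfl⟩
    have hm1 : z ≤ m := by rw [hm]; linarith
    have Km := p3K2b (z := m) (b := b) (d := d) (by linarith) b0 hbd (by rw [hm]; ring)
    have k1 := mul_nonneg (by linarith : 0 ≤ m - z) K0
    have k2 := mul_nonneg z0 Km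
    have k3 : 0 ≤ ((d - b) * (1 - d)) * (z * (m - z)) * m :=
      mul_nonneg (mul_nonneg (mul_nonneg (by linarith) (by linarith))
        (mul_nonneg z0 (by linarith))) (by linarith)
    have k4 : 0 ≤ m * ((251 / 500 + 9 / 10 * z - (z + b + d) * (1 - d) + b ^ 2 / 3) * (11 / 16 - d)
      - (z * (1 + z - d - b) * (d - b)) * (1 - d) - 1 / 27000) := by
      nlinarith
    exact nonneg_of_mul_nonneg_right k4 (by linarith)

/-- `(L)`: for `c < 0` -/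
theorem p3L {z b d : ℝ} (z0 : 0 ≤ z) (b0 : 0 ≤ b) (b1 : b ≤ 11 / 20) (d1 : d ≤ 1 / 2)
    (h : 9 / 10 * z ≤ 249 / 500 - d - b ^ 2 / 3) (hc : 11 / 16 - d < b * (1 - d)) :
    1 / 27000 ≤ (11 / 16 - d) * (1 - b - d - z) - b * (249 / 500 - d - b ^ 2 / 3 - 9 / 10 * z) := by
  have hd : 61 / 200 ≤ d := by
    nlinarith [mul_nonneg (by linarith : 0 ≤ 11 / 20 - b) (by linarith : 0 ≤ 1 - d)]
  have hb : 3 / 8 ≤ b := by nlinarith
  have k1 : 0 ≤ z * (9 / 10 * b - (11 / 16 - d)) := by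
    refine mul_nonneg z0 ?_
    nlinarith [mul_nonneg b0 (by linarith : 0 ≤ d - 1 / 10)]
  have k2 : 1 / 27000 ≤ (11 / 16 - d) * (1 - b - d) - b * (249 / 500 - d - b ^ 2 / 3) := by
    have k3 : 0 ≤ (11 / 20 - b) * ((11 / 16 - d) + (249 / 500 - d)
        - (121 / 400 + 11 / 20 * b + b ^ 2) / 3) := by
      refine mul_nonneg (by linarith) ?_
      nlinarith [mul_nonneg (by linarith : 0 ≤ b - 3 / 8) (by linarith : 0 ≤ 11 / 20 - b)]
    nlinarith [sq_nonneg (d - 47 / 160)]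
  nlinarith

/-- `c < 0` only for `d < b` -/
theorem p3M {b d : ℝ} (hbd : b ≤ d) (d1 : d ≤ 1 / 2)
    (h : 0 ≤ 249 / 500 - d - b ^ 2 / 3) : b * (1 - d) ≤ 11 / 16 - d := by
  nlinarith [mul_nonneg (by linarith : 0 ≤ d - b) (by linarith : 0 ≤ 1 / 2 - d),
    sq_nonneg (b - 9 / 20)]

/-- Step B -/
theorem p2B {b d y : ℝ} (b0 : 0 ≤ b) (b1 : b ≤ 11 / 20) (d1 : d ≤ 11 / 20)
    (y0 : 0 ≤ y) (h : y + b + d ≤ 1) :
    y * (b + d - b * d - 11 / 16) - b * (d - (1 - b) / 2) ^ 2 ≤ 0 := by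
  rcases le_total (b + d - b * d - 11 / 16) 0 with h1 | h1
  · nlinarith [mul_nonneg y0 (by linarith : 0 ≤ -(b + d - b * d - 11 / 16)),
      mul_nonneg b0 (sq_nonneg (d - (1 - b) / 2))]
  · have k1 : y * (b + d - b * d - 11 / 16) ≤ (1 - b - d) * (b + d - b * d - 11 / 16) :=
      mul_le_mul_of_nonneg_right (by linarith) h1
    obtain ⟨p, hp⟩ : ∃ p, p = 1 - b := ⟨_, rfl⟩
    obtain ⟨q, hq⟩ : ∃ q, q = 1 - d := ⟨_, rfl⟩
    have eb : b = 1 - p := by linarith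
    have ed : d = 1 - q := by linarith
    subst eb ed
    have p0 : 9 / 20 ≤ p := by linarith
    have q0 : 9 / 20 ≤ q := by linarith
    have hpq : p * q ≤ 5 / 16 := by nlinarith
    have p1 : p ≤ 139 / 200 := by nlinarith
    have e1 : p / 2 - 29 / 200 ≤ 1 - q - p / 2 := by
      by_contra hc
      have : p * (1 - q - p / 2) < p * (p / 2 - 29 / 200) :=
        mul_lt_mul_of_pos_left (not_le.1 hc) (by linarith)
      nlinarith [mul_nonneg (by linarith : 0 ≤ p - 9 / 20) (by linarith : 0 ≤ 139 / 200 - p)]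
    have e2 : (p / 2 - 29 / 200) ^ 2 ≤ (1 - q - p / 2) ^ 2 :=
      pow_le_pow_left₀ (by linarith) e1 2
    have e3 := mul_le_mul_of_nonneg_left e2 b0
    have e4 : 1 / 400 ≤ (1 - p) * (p / 2 - 29 / 200) ^ 2 := by
      nlinarith [mul_nonneg (by linarith : 0 ≤ p - 9 / 20) (by linarith : 0 ≤ 139 / 200 - p),
        mul_nonneg (mul_nonneg (by linarith : 0 ≤ p - 9 / 20) (by linarith : 0 ≤ 139 / 200 - p))
          (by linarith : 0 ≤ p)]
    have e5 : (p + q - 1) * (5 / 16 - p * q) ≤ 1 / 400 := by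
      have f1 : 5 / 16 - p * q ≤ 13 / 200 - 9 / 20 * (p + q - 1) := by
        nlinarith [mul_nonneg (by linarith : 0 ≤ p - 9 / 20) (by linarith : 0 ≤ q - 9 / 20)]
      have f2 := mul_le_mul_of_nonneg_left f1 (by linarith : 0 ≤ p + q - 1)
      nlinarith [sq_nonneg (p + q - 1 - 13 / 180)]
    nlinarith

/-- `(c1)`, the width `a + b - 9/20 ≤ a` -/
theorem p1G {a σ : ℝ} (h1 : 9 / 500 ≤ σ) (h2 : σ ≤ 2 / 5) :
    0 ≤ (a - 13 / 50) ^ 2 / 2 + 3 / 25 * σ - 3 / 5000 - σ * a * (9 / 20 + σ - a) + σ ^ 3 / 3 := by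
  have hd : 0 ≤ -(12 / 10000 - 1388 / 10000 * σ + 2425 / 10000 * σ ^ 2 + 7 / 30 * σ ^ 3
      - σ ^ 4 / 3) := by
    have k3 : σ ^ 3 ≤ 2 / 5 * σ ^ 2 := by
      nlinarith [mul_nonneg (sq_nonneg σ) (by linarith : 0 ≤ 2 / 5 - σ)]
    have k4 : 0 ≤ σ ^ 4 := by positivity
    nlinarith [mul_nonneg (by linarith : 0 ≤ σ - 9 / 500) (by linarith : 0 ≤ 2 / 5 - σ)]
  have k : 0 ≤ (2 + 4 * σ) * ((a - 13 / 50) ^ 2 / 2 + 3 / 25 * σ - 3 / 5000
      - σ * a * (9 / 20 + σ - a) + σ ^ 3 / 3) := by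
    nlinarith [sq_nonneg ((1 + 2 * σ) * a - (13 / 50 + 9 / 20 * σ + σ ^ 2))]
  exact nonneg_of_mul_nonneg_right k (by linarith)

/-- `(c1)`, the width free, `9/20 ≤ b` -/
theorem p1H {a b : ℝ} (a0 : 7 / 50 ≤ a) (b0 : 9 / 20 ≤ b) (b1 : b ≤ 11 / 20) :
    a * (a + b) ^ 2 / 4 - a ^ 3 / 3 ≤ (a - 7 / 50) ^ 2 / 2 + 3 / 25 * b - 153 / 5000 := by
  have h55 : 0 ≤ a ^ 3 / 12 + 225 / 1000 * a ^ 2 - 215625 / 1000000 * a + 452 / 10000 := by
    nlinarith [mul_nonneg (by linarith : 0 ≤ a + 39 / 50) (sq_nonneg (a - 39 / 100)),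
      sq_nonneg (a - 393 / 1000)]
  have h45 : 0 ≤ a ^ 3 / 12 + 275 / 1000 * a ^ 2 - 190625 / 1000000 * a + 332 / 10000 := by
    nlinarith [mul_nonneg (by linarith : 0 ≤ a + 31 / 50) (sq_nonneg (a - 31 / 100)),
      sq_nonneg (a - 31 / 100)]
  nlinarith [mul_nonneg h55 (by linarith : 0 ≤ b - 9 / 20),
    mul_nonneg h45 (by linarith : 0 ≤ 11 / 20 - b),
    mul_nonneg (mul_nonneg (by linarith : 0 ≤ b - 9 / 20) (by linarith : 0 ≤ 11 / 20 - b))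
      (by linarith : 0 ≤ a)]

/-- `(c1)`, `2/5 ≤ a ≤ 69/100` -/
theorem p1a {a b : ℝ} (ha : 2 / 5 ≤ a) (b0 : 0 ≤ b) (hb : b ≤ 11 / 20) :
    0 ≤ (a - 7 / 50) ^ 2 / 2 + 3 / 25 * b - 153 / 5000 - (b * (b + a) ^ 2 / 4 - b ^ 3 / 3)
      - 3 / 10000 := by
  have h0 : 0 ≤ (a - 7 / 50) ^ 2 / 2 - 309 / 10000 := by nlinarith
  have h1 : 0 ≤ 3625 / 10000 * a ^ 2 - 29125 / 100000 * a + 587645 / 10000000 := by
    nlinarith [sq_nonneg (a - 4017 / 10000)]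
  nlinarith [mul_nonneg h0 (by linarith : 0 ≤ 11 / 20 - b), mul_nonneg h1 b0,
    mul_nonneg (mul_nonneg b0 (by linarith : 0 ≤ 11 / 20 - b))
      (by linarith : 0 ≤ a / 2 - (b + 11 / 20) / 12)]

/-- `(c1)`, `69/100 ≤ a ≤ 1` -/
theorem p1b {a b : ℝ} (ha : 69 / 100 ≤ a) (b0 : 0 ≤ b) (hb : b ≤ 11 / 20) :
    0 ≤ 17 / 50 * a ^ 2 + 3 / 400 * a - 21 / 1250 + 3 / 25 * b - 153 / 5000
      - (b * (b + a) ^ 2 / 4 - b ^ 3 / 3) - 3 / 10000 := by
  have h0 : 0 ≤ 17 / 50 * a ^ 2 + 3 / 400 * a - 21 / 1250 - 309 / 10000 := by nlinarith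
  have h1 : 0 ≤ 2025 / 10000 * a ^ 2 - 14375 / 100000 * a + 321 / 10000 := by
    nlinarith [sq_nonneg (a - 355 / 1000)]
  nlinarith [mul_nonneg h0 (by linarith : 0 ≤ 11 / 20 - b), mul_nonneg h1 b0,
    mul_nonneg (mul_nonneg b0 (by linarith : 0 ≤ 11 / 20 - b))
      (by linarith : 0 ≤ a / 2 - (b + 11 / 20) / 12)]

/-! ### The loss of the row -/

theorem LO_lo {A : ℝ} (h1 : 7 / 50 ≤ A) (h2 : A ≤ 69 / 100) : LO A = (A - 7 / 50) ^ 2 / 2 := by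
  unfold LO
  rcases eq_or_lt_of_le h1 with h | h
  · rw [← h]; norm_num
  · rw [if_neg (by linarith), if_pos h2]

theorem LO_hi {A : ℝ} (h1 : 69 / 100 < A) (h2 : A ≤ 3 / 2) :
    LO A = 17 / 50 * A ^ 2 + 3 / 400 * A - 21 / 1250 := by
  unfold LO
  rw [if_neg (by linarith), if_neg (by linarith), if_pos h2]

theorem LO_top {A : ℝ} (h1 : 3 / 2 < A) : LO A = 19 / 25 + 24 / 25 * (A - 3 / 2) := by
  unfold LO
  rw [if_neg (by linarith), if_neg (by linarith), if_neg (by linarith)]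

theorem LO_zero {A : ℝ} (h : A ≤ 7 / 50) : LO A = 0 := by
  unfold LO; rw [if_pos h]

/-- slope of the loss above `1` -/
theorem LO_slope {s t : ℝ} (h1 : 1 ≤ s) (h : s ≤ t) : 11 / 16 * (t - s) ≤ LO t - LO s := by
  unfold LO
  rw [if_neg (by linarith), if_neg (by linarith), if_neg (by linarith : ¬ s ≤ 7 / 50),
    if_neg (by linarith : ¬ s ≤ 69 / 100)]
  split_ifs with h2 h3 h3
  · nlinarith [mul_nonneg (by linarith : 0 ≤ t - s) (by linarith : 0 ≤ t + s - 2)]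
  · linarith
  · nlinarith [mul_nonneg (by linarith : 0 ≤ s - 1) (by linarith : 0 ≤ 3 / 2 - s)]
  · linarith

/-- `(c2)`, the losses for `A ≤ a < 1` -/
theorem p2ii {A a β f : ℝ} (hA : 2 / 5 ≤ A) (h : A ≤ a) (ha : a ≤ 1) (β0 : 0 ≤ β)
    (hβ : β ≤ 11 / 20) (hf : f ≤ β * (β + a) ^ 2 / 4 - β ^ 3 / 3 + 3 / 10000)
    (hf' : 11 / 20 ≤ a → f ≤ β * (β + a) ^ 2 / 4 - β ^ 3 / 3) :
    f - LO a ≤ β * (β + A) ^ 2 / 4 - β ^ 3 / 3 + 1 / 1000 - LO A ∨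
      f - LO A ≤ β * (β + A) ^ 2 / 4 - β ^ 3 / 3 + 1 / 1000 - LO A := by
  have k1 : β * (β + a) ^ 2 / 4 - β * (β + A) ^ 2 / 4 ≤
      11 / 80 * ((a - A) * (a + A + 11 / 10)) := by
    have e : β * (β + a) ^ 2 / 4 - β * (β + A) ^ 2 / 4 = (a - A) * (β * (a + A + 2 * β) / 4) := by
      ring
    rw [e]
    have : β * (a + A + 2 * β) / 4 ≤ 11 / 80 * (a + A + 11 / 10) := by
      nlinarith [mul_nonneg β0 (by linarith : 0 ≤ 11 / 20 - β),
        mul_nonneg (by linarith : 0 ≤ a + A) (by linarith : 0 ≤ 11 / 20 - β)]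
    have := mul_le_mul_of_nonneg_left this (by linarith : 0 ≤ a - A)
    linarith
  rcases le_or_gt a (69 / 100) with h1 | h1
  · left
    rw [LO_lo (by linarith) h1, LO_lo (by linarith) (by linarith)]
    nlinarith [mul_nonneg (by linarith : 0 ≤ a - A) (by linarith : 0 ≤ A - 2 / 5),
      sq_nonneg (a - A - 1 / 580)]
  · have hf2 := hf' (by linarith)
    rw [LO_hi h1 (by linarith)]
    rcases le_or_gt A (69 / 100) with h2 | h2
    · rw [LO_lo (by linarith) h2]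
      rcases le_total (a - A) (1 / 1000) with h3 | h3
      · right
        nlinarith [mul_nonneg (by linarith : 0 ≤ a - A) (by linarith : 0 ≤ 2 - a - A)]
      · left
        nlinarith [mul_nonneg (by linarith : 0 ≤ a - 69 / 100) (by linarith : 0 ≤ 69 / 100 - A),
          mul_nonneg (by linarith : 0 ≤ a - 69 / 100) (by linarith : 0 ≤ 1 - a),
          mul_nonneg (by linarith : 0 ≤ 69 / 100 - A) (by linarith : 0 ≤ A - 2 / 5)]
    · left
      rw [LO_hi h2 (by linarith)]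
      nlinarith [mul_nonneg (by linarith : 0 ≤ a - A) (by linarith : 0 ≤ a + A - 138 / 100)]

/-- Step A -/
theorem p2A {A β : ℝ} (hA : 2 / 5 ≤ A) (h : A ≤ 1) (β0 : 0 ≤ β) (hβ : β ≤ 11 / 20) :
    β * (β + 1) ^ 2 / 4 - LO 1 ≤ β * (β + A) ^ 2 / 4 - LO A := by
  have k1 : β * (β + 1) ^ 2 / 4 - β * (β + A) ^ 2 / 4 ≤
      11 / 80 * ((1 - A) * (1 + A + 11 / 10)) := by
    have e : β * (β + 1) ^ 2 / 4 - β * (β + A) ^ 2 / 4 = (1 - A) * (β * (1 + A + 2 * β) / 4) := by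
      ring
    rw [e]
    have : β * (1 + A + 2 * β) / 4 ≤ 11 / 80 * (1 + A + 11 / 10) := by
      nlinarith [mul_nonneg β0 (by linarith : 0 ≤ 11 / 20 - β),
        mul_nonneg (by linarith : 0 ≤ 1 + A) (by linarith : 0 ≤ 11 / 20 - β)]
    have := mul_le_mul_of_nonneg_left this (by linarith : 0 ≤ 1 - A)
    linarith
  rw [LO_one]
  rcases le_or_gt A (69 / 100) with h2 | h2
  · rw [LO_lo (by linarith) h2]
    nlinarith [mul_nonneg (by linarith : 0 ≤ 69 / 100 - A) (by linarith : 0 ≤ A - 2 / 5)]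
  · rw [LO_hi h2 (by linarith)]
    nlinarith [mul_nonneg (by linarith : 0 ≤ 1 - A) (by linarith : 0 ≤ A - 69 / 100)]

/-! ### The volume -/

/-- the components exchanged -/
theorem vl_swap (w a b : ℝ) : vl w a b = vl w b a := by
  unfold vl; ring

theorem vl_mono_l {w a a' b : ℝ} (w0 : 0 ≤ w) (a0 : 0 ≤ a) (b0 : 0 ≤ b) (hs : w ≤ a + b)
    (h : a ≤ a') : vl w a b ≤ vl w a' b := by
  rw [vl_swap w a, vl_swap w a']
  exact vl_mono_r w0 b0 a0 (by linarith) h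

/-- the volume without the restriction of the width -/
theorem vl_sup {w a b : ℝ} (w0 : 0 < w) (a0 : 0 ≤ a) (b0 : 0 ≤ b) (hs : w ≤ a + b)
    (hb : b ≤ a + 3 / 20) : vl w a b ≤ b * (b + a) ^ 2 / 4 - b ^ 3 / 3 + 3 / 10000 := by
  rcases le_total b a with h | h
  · have := vl_le_beta w0 a0 b0 hs le_rfl h
    rw [add_comm b a]
    linarith
  · have h1 := vl_le_beta w0 b0 a0 (by linarith) le_rfl h
    rw [vl_swap] at h1
    have h2 : (b - a) ^ 3 ≤ (3 / 20) ^ 3 := pow_le_pow_left₀ (by linarith) (by linarith) 3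
    nlinarith

/-- the bound increases with the second component -/
theorem V1_mono {a b β : ℝ} (a0 : 2 / 5 ≤ a) (b0 : 0 ≤ b) (h : b ≤ β) (hβ : β ≤ 11 / 20) :
    b * (b + a) ^ 2 / 4 - b ^ 3 / 3 ≤ β * (β + a) ^ 2 / 4 - β ^ 3 / 3 := by
  have k : 0 ≤ (β - b) * (a ^ 2 / 4 + a * (β + b) / 2 - (β ^ 2 + β * b + b ^ 2) / 12) := by
    refine mul_nonneg (by linarith) ?_
    nlinarith [mul_nonneg b0 (by linarith : 0 ≤ β - b),
      mul_nonneg b0 (by linarith : 0 ≤ 11 / 20 - β),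
      mul_nonneg (b0.trans h) (by linarith : 0 ≤ 11 / 20 - β),
      mul_nonneg b0 (by linarith : 0 ≤ a - 2 / 5),
      mul_nonneg (b0.trans h) (by linarith : 0 ≤ a - 2 / 5)]
  nlinarith

/-- the volume for `1 ≤ a` -/
theorem vl_ge_one {w a b d : ℝ} (w1 : w ≤ 1) (ha : 1 ≤ a) (d0 : 0 ≤ d) (hw : w = a + b + d - 1) :
    vl w a b = b * ((a - 1 + b + d) * (1 - d)) - b ^ 3 / 3 := by
  unfold vl
  rw [max_eq_right (by linarith : w - a ≤ 0), max_eq_left (by linarith : 0 ≤ w - b), hw]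
  ring

/-- **the volume of a low cell with `a ≤ 2/5`** -/
theorem p1 {w a b : ℝ} (w0 : 0 < w) (a0 : 0 < a) (a1 : a ≤ 2 / 5) (b0 : 0 < b) (b1 : b ≤ 11 / 20)
    (hw : w ≤ a + b - 9 / 20) :
    vl w a b ≤ 1 / 1000 ∨ vl w a b ≤ LO a + 3 / 25 * b - 153 / 5000 := by
  have hwb : w ≤ b := by linarith
  have hab : w * a * b ≤ (a + b - 9 / 20) * a * b := by
    have := mul_le_mul_of_nonneg_right hw (mul_pos a0 b0).le
    linarith
  have hv0 : vl w a b ≤ w * a * b := vl_le w0.le a0.le b0.le (by linarith)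
  rcases le_total a (7 / 50) with h1 | h1
  · right
    rw [LO_zero h1]
    have k1 : 31 / 100 < b := by linarith
    have k2 : (a + b - 9 / 20) * a * b ≤ 7 / 50 * (b - 31 / 100) * b := by
      have : (a + b - 9 / 20) * a ≤ (b - 31 / 100) * (7 / 50) := by
        exact mul_le_mul (by linarith) h1 a0.le (by linarith)
      nlinarith [mul_le_mul_of_nonneg_right this b0.le]
    nlinarith [mul_nonneg (by linarith : 0 ≤ b - 31 / 100) (by linarith : 0 ≤ 11 / 20 - b)]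
  · rw [LO_lo h1 (by linarith)]
    obtain ⟨σ, hσ⟩ : ∃ σ, σ = a + b - 9 / 20 := ⟨_, rfl⟩
    have eb : b = 9 / 20 + σ - a := by linarith
    have hσ0 : 0 < σ := by linarith
    rcases le_or_gt (w * a * b) (1 / 1000) with h2 | h2
    · left
      linarith
    right
    have hσ1 : 9 / 500 ≤ σ := by
      by_contra hc
      have hc' := not_le.1 hc
      have q1 : a * b ≤ (9 / 20 + σ) ^ 2 / 4 := by nlinarith [sq_nonneg (a - b)]
      have q2 : w * (a * b) ≤ σ * ((9 / 20 + σ) ^ 2 / 4) :=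
        mul_le_mul (by linarith) q1 (mul_pos a0 b0).le hσ0.le
      nlinarith [mul_nonneg hσ0.le (by linarith : 0 ≤ 9 / 500 - σ),
        mul_nonneg (mul_nonneg hσ0.le hσ0.le) (by linarith : 0 ≤ 9 / 500 - σ)]
    have q1 : a * b ≤ (a + b) ^ 2 / 4 := by nlinarith [sq_nonneg (a - b)]
    rcases le_total w a with h3 | h3
    · have hv : vl w a b = w * a * b - w ^ 3 / 3 := by
        unfold vl
        rw [max_eq_right (by linarith : w - a ≤ 0), max_eq_right (by linarith : w - b ≤ 0)]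
        ring
      rw [hv]
      rcases le_total σ a with h4 | h4
      · have k := p1G (a := a) hσ1 (by linarith)
        have k2 : 0 ≤ (σ - w) * (a * b - (σ ^ 2 + σ * w + w ^ 2) / 3) := by
          refine mul_nonneg (by linarith) ?_
          have m1 : σ * σ ≤ a * b := mul_le_mul h4 (by linarith) hσ0.le a0.le
          nlinarith [mul_nonneg hσ0.le (by linarith : 0 ≤ σ - w),
            mul_nonneg w0.le (by linarith : 0 ≤ σ - w)]
        rw [eb] at k2 ⊢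
        nlinarith
      · have k := p1H (a := a) (b := b) h1 (by linarith) b1
        have k2 : 0 ≤ (a - w) * (a * b - (a ^ 2 + a * w + w ^ 2) / 3) := by
          refine mul_nonneg (by linarith) ?_
          nlinarith [mul_nonneg a0.le (by linarith : 0 ≤ b - a),
            mul_nonneg a0.le (by linarith : 0 ≤ a - w), mul_nonneg w0.le (by linarith : 0 ≤ a - w)]
        nlinarith [mul_le_mul_of_nonneg_left q1 a0.le]
    · have k := p1H (a := a) (b := b) h1 (by linarith) b1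
      have hv : vl w a b = a * (w * (a + b - w)) - a ^ 3 / 3 := by
        unfold vl
        rw [max_eq_left (by linarith : 0 ≤ w - a), max_eq_right (by linarith : w - b ≤ 0)]
        ring
      rw [hv]
      have q3 : w * (a + b - w) ≤ (a + b) ^ 2 / 4 := by nlinarith [sq_nonneg (a + b - 2 * w)]
      nlinarith [mul_le_mul_of_nonneg_left q3 a0.le]

/-- `(c1)` for `2/5 ≤ a ≤ 1` -/
theorem p1' {a b f : ℝ} (ha : 2 / 5 ≤ a) (ha1 : a ≤ 1) (b0 : 0 ≤ b) (hb : b ≤ 11 / 20)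
    (hf : f ≤ b * (b + a) ^ 2 / 4 - b ^ 3 / 3 + 3 / 10000) :
    f - LO a ≤ 3 / 25 * b - 153 / 5000 := by
  rcases le_or_gt a (69 / 100) with h1 | h1
  · rw [LO_lo (by linarith) h1]
    linarith [p1a ha b0 hb]
  · rw [LO_hi h1 (by linarith)]
    linarith [p1b h1.le b0 hb]

end Pool.Agent.Helper59.TS
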