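import Pool.Agent.Helper59.TS.ConfPoly

/-!
# The column with two far cells: the four cases in real variables
-/

set_option autoImplicit false

namespace Pool.Agent.Helper59.TS

open Pool.Agent.Helper36.TS Pool.Agent.Helper74.TS Pool.Agent.Helper90.TS Pool.Agent.Helper95.TS
  Pool.Agent.Helper51.TS

/-- the net loss of the row, with the sharp own term -/
noncomputable def net0 (a δ : ℝ) : ℝ := -LO a + if 1 ≤ a then h0 (a - 1) δ + 1 / 27000 else 0

theorem net0_lt {a δ : ℝ} (h : a < 1) : net0 a δ = -LO a := by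
  rw [net0, if_neg (by linarith), add_zero]

theorem net0_ge {a δ : ℝ} (h : 1 ≤ a) : net0 a δ = -LO a + (h0 (a - 1) δ + 1 / 27000) := by
  rw [net0, if_pos h]

theorem h0_lin {y d : ℝ} (y0 : 0 ≤ y) (d0 : 0 ≤ d) : h0 y d ≤ d * y := by
  have := h0_lip (d := d) y0
  rw [h0_zero d0] at this
  linarith

/-- the own term increases with the height -/
theorem hown_mono {z d e : ℝ} (z0 : 0 ≤ z) (z1 : z ≤ 1) (d0 : 0 ≤ d) (h : d ≤ e) (he : e ≤ 11 / 20) :
    hown z d ≤ hown z e := by
  rw [hown_eq, hown_eq]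
  have m0 : max (d - 1 / 2) 0 ≤ max (e - 1 / 2) 0 := max_le_max (by linarith) le_rfl
  rcases le_total z d with h1 | h1
  · rw [h0_le h1, h0_le (h1.trans h)]
    rcases le_total (d + e) (1 + z) with h2 | h2
    · have := mul_nonneg (mul_nonneg z0 (by linarith : 0 ≤ e - d)) (by linarith : 0 ≤ 1 + z - d - e)
      nlinarith
    · -- `z ≤ 1/10`, the excess is paid by the last term
      have m1 : max (e - 1 / 2) 0 = e - 1 / 2 := max_eq_left (by linarith)
      have m3 : 0 ≤ max (d - 1 / 2) 0 := le_max_right _ _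
      have m4 : max (d - 1 / 2) 0 ≤ max (e - 1 / 2) 0 := m0
      have m5 : max (e - 1 / 2) 0 - max (d - 1 / 2) 0 ≥ min (e - d) (e - 1 / 2) := by
        rcases le_total d (1 / 2) with g | g
        · rw [m1, max_eq_right (by linarith : d - 1 / 2 ≤ 0)]
          linarith [min_le_right (e - d) (e - 1 / 2)]
        · rw [m1, max_eq_left (by linarith : 0 ≤ d - 1 / 2)]
          linarith [min_le_left (e - d) (e - 1 / 2)]
      have z1' : z ≤ 1 / 10 := by linarith
      have k1 : 0 ≤ d + e - 1 - z := by linarith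
      rcases le_total (e - d) (e - 1 / 2) with g | g
      · rw [min_eq_left g] at m5
        have k2 : z * (e - d) * (d + e - 1 - z) ≤ 1 / 10 * (e - d) * (1 / 10) :=
          mul_le_mul (mul_le_mul_of_nonneg_right z1' (by linarith)) (by linarith) k1
            (mul_nonneg (by norm_num) (by linarith))
        nlinarith
      · rw [min_eq_right g] at m5
        have k3 : d + e - 1 - z ≤ 2 * (e - 1 / 2) := by linarith
        have k2 : z * (e - d) * (d + e - 1 - z) ≤ 1 / 10 * 1 * (2 * (e - 1 / 2)) :=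
          mul_le_mul (mul_le_mul z1' (by linarith) (by linarith) (by norm_num)) k3 k1 (by norm_num)
        nlinarith
  · rcases le_total z e with h2 | h2
    · rw [h0_ge h1, h0_le h2]
      have k : 0 ≤ (e - z) * (1 - e) * z := mul_nonneg (mul_nonneg (by linarith) (by linarith)) z0
      have k2 : 0 ≤ (z - d) * (z - (z ^ 2 + z * d + d ^ 2) / 3) := by
        refine mul_nonneg (by linarith) ?_
        nlinarith [mul_nonneg z0 (by linarith : 0 ≤ 1 - z), mul_nonneg z0 (by linarith : 0 ≤ z - d),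
          mul_nonneg d0 (by linarith : 0 ≤ z - d)]
      nlinarith
    · rw [h0_ge h1, h0_ge h2]
      have k2 : 0 ≤ (e - d) * (z - (e ^ 2 + e * d + d ^ 2) / 3) := by
        refine mul_nonneg (by linarith) ?_
        nlinarith [mul_nonneg d0 (by linarith : 0 ≤ e - d),
          mul_nonneg (d0.trans h) (by linarith : 0 ≤ 1 - e), mul_nonneg (d0.trans h) (by linarith : 0 ≤ e - d)]
      nlinarith

variable {f w a b d : ℝ}

/-- the width under the bound of the height -/
theorem Fd.w9 (h : Fd f w a b d) (hd : d < 11 / 20) : w ≤ a + b - 9 / 20 := by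
  linarith [h.sum]

/-- the volume and the loss for `1 ≤ a` -/
theorem big_a (h : Fd f w a b d) (hd : d < 11 / 20) (hb : b ≤ 11 / 20) (ha : 1 ≤ a) :
    f + net0 a d ≤ b * (b + 1) ^ 2 / 4 - b ^ 3 / 3 - LO 1 + 1 / 27000 := by
  have h1 := vl_ge_one h.w1 ha h.d0 (by linarith [h.sum] : w = a + b + d - 1)
  have h2 := h0_lin (y := a - 1) (by linarith) h.d0
  have h3 := LO_slope le_rfl ha
  have h4 := p2B h.b0.le hb hd.le (by linarith : 0 ≤ a - 1) (by linarith [h.sum, h.w1])
  rw [net0_ge ha, h.vol, h1]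
  nlinarith

/-- **(c1)** -/
theorem c1 {A β : ℝ} (h : Fd f w a b d) (hd : d < 11 / 20) (hA0 : 0 < A) (hA : A ≤ 2 / 5)
    (hb : b ≤ β) (hβ : β ≤ 11 / 20) :
    (f + net0 a d ≤ -LO A + 1 / 1000 ∨ f + net0 a d ≤ 3 / 25 * β - 153 / 5000) ∨
      f - LO A ≤ -LO A + 1 / 1000 ∨ f - LO A ≤ 3 / 25 * β - 153 / 5000 := by
  have hw := h.w9 hd
  rcases le_total a A with h1 | h1
  · right
    have k := vl_mono_l h.w0.le h.a0.le h.b0.le (by linarith) h1 (b := b)
    rcases p1 h.w0 hA0 hA h.b0 (hb.trans hβ) (by linarith) with k1 | k1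
    · left
      rw [h.vol]
      linarith
    · right
      rw [h.vol]
      linarith
  · rcases le_total a (2 / 5) with h2 | h2
    · rcases p1 h.w0 h.a0 h2 h.b0 (hb.trans hβ) hw with k1 | k1
      · right; left
        rw [h.vol]
        linarith
      · left; right
        rw [h.vol, net0_lt (by linarith)]
        linarith
    · left; right
      rcases lt_or_ge a 1 with h3 | h3
      · have k := vl_sup h.w0 h.a0.le h.b0.le (by linarith) (by linarith : b ≤ a + 3 / 20)
        have k2 := p1' h2 h3.le h.b0.le (hb.trans hβ) k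
        rw [h.vol, net0_lt h3]
        linarith
      · have k := big_a h hd (hb.trans hβ) h3
        have k2 := p1b (a := 1) (by norm_num) h.b0.le (hb.trans hβ)
        rw [LO_one] at k
        linarith

/-- **(c2)** -/
theorem c2 {A β : ℝ} (h : Fd f w a b d) (hd : d < 11 / 20) (hA0 : 2 / 5 ≤ A) (hA : A ≤ 1)
    (hb : b ≤ β) (hβ : β ≤ 11 / 20) :
    f + net0 a d ≤ β * (β + A) ^ 2 / 4 - β ^ 3 / 3 + 1 / 1000 - LO A ∨
      f - LO A ≤ β * (β + A) ^ 2 / 4 - β ^ 3 / 3 + 1 / 1000 - LO A := by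
  have hw := h.w9 hd
  have hb1 := hb.trans hβ
  rcases le_total a A with h1 | h1
  · right
    have k := vl_mono_l h.w0.le h.a0.le h.b0.le (by linarith) h1 (b := b)
    have k1 := vl_sup h.w0 (by linarith) h.b0.le (by linarith) (by linarith : b ≤ A + 3 / 20)
    have k2 := V1_mono hA0 h.b0.le hb hβ
    rw [h.vol]
    linarith
  · rcases lt_or_ge a 1 with h3 | h3
    · have k1 := vl_sup h.w0 h.a0.le h.b0.le (by linarith) (by linarith : b ≤ a + 3 / 20)
      have k2 := V1_mono (hA0.trans h1) h.b0.le hb hβ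
      rw [net0_lt h3, h.vol]
      refine p2ii hA0 h1 h3.le (h.b0.le.trans hb) hβ (by linarith) fun h4 => ?_
      have k3 := vl_le_beta h.w0 h.a0.le h.b0.le (by linarith) le_rfl (by linarith : b ≤ a)
      rw [add_comm a b] at k3
      linarith
    · left
      have k := big_a h hd hb1 h3
      have k2 := V1_mono (a := 1) (by norm_num) h.b0.le hb hβ
      have k3 := p2A hA0 hA (h.b0.le.trans hb) hβ
      linarith

/-- `(c3)`, the case `d ≤ b` -/
theorem c3key1 {z u E : ℝ} (z0 : 0 ≤ z) (d0 : 0 ≤ d) (b0 : 0 ≤ b) (hb1 : b ≤ 11 / 20)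
    (d1 : d ≤ 1 / 2) (hs : u ≤ 1 - b - d - z) (hz2 : 9 / 10 * z ≤ 249 / 500 - d - b ^ 2 / 3)
    (hE : E = 251 / 500 + 9 / 10 * z - (z + b + d) * (1 - d) + b ^ 2 / 3)
    (huE : E < u * (1 - d)) : 1 / 27000 ≤ (11 / 16 - d - b * (1 - d)) * u + b * E := by
  have hE0 : 1 / 500 ≤ E := by
    rw [hE]
    exact p3E z0 b0 hb1 d0 hz2
  have m1 := p3K1 d1 hE0
  rcases le_or_gt 0 (11 / 16 - d - b * (1 - d)) with h4 | h4
  · have m2 := mul_le_mul_of_nonneg_left huE.le h4
    have m3 : 1 / 27000 * (1 - d) ≤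
        ((11 / 16 - d - b * (1 - d)) * u + b * E) * (1 - d) := by
      nlinarith
    exact le_of_mul_le_mul_right m3 (by linarith)
  · have m1 := p3L z0 b0 hb1 d1 hz2 (by linarith)
    have m2 := mul_le_mul_of_nonpos_left hs h4.le
    rw [hE]
    nlinarith

/-- `(c3)`, the case `b ≤ d` -/
theorem c3key2 {z u E : ℝ} (z0 : 0 ≤ z) (d0 : 0 ≤ d) (b0 : 0 ≤ b) (hb1 : b ≤ 11 / 20)
    (h3 : b ≤ d) (d1 : d ≤ 1 / 2) (hz2 : 9 / 10 * z ≤ 249 / 500 - d - b ^ 2 / 3)
    (hE : E = 251 / 500 + 9 / 10 * z - (z + b + d) * (1 - d) + b ^ 2 / 3)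
    (huE : E < u * (1 - d)) : z * (1 + z - d - b) * (d - b) + 1 / 27000 ≤
      (11 / 16 - d - b * (1 - d)) * u + b * E := by
  have hb2 := sq_nonneg b
  have hc := p3M h3 d1 (by linarith : 0 ≤ 249 / 500 - d - b ^ 2 / 3)
  have m1 := p3K2 z0 b0 hb1 h3 d1 (by linarith)
  rw [← hE] at m1
  have m2 := mul_le_mul_of_nonneg_left huE.le (by linarith : 0 ≤ 11 / 16 - d - b * (1 - d))
  have m3 : (z * (1 + z - d - b) * (d - b) + 1 / 27000) * (1 - d) ≤
      ((11 / 16 - d - b * (1 - d)) * u + b * E) * (1 - d) := by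
    nlinarith
  exact le_of_mul_le_mul_right m3 (by linarith)

/-- `h0` at two heights -/
theorem h0_heights {z b d : ℝ} (h : b ≤ d) :
    h0 z d - z * (1 + z - d - b) * (d - b) ≤ h0 z b := by
  have n1 : max (z - d) 0 ≤ max (z - b) 0 := max_le_max (by linarith) le_rfl
  have n2 : (max (z - d) 0) ^ 3 ≤ (max (z - b) 0) ^ 3 :=
    pow_le_pow_left₀ (le_max_right _ _) n1 3
  unfold h0
  nlinarith

/-- **(c3)** -/
theorem c3 {z β D : ℝ} (h : Fd f w a b d) (z0 : 0 ≤ z) (hz : z + β ≤ 1)
    (hb : b ≤ β) (hβ : β ≤ D) (hD : D < 11 / 20) :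
    f + net0 a d ≤ -LO (1 + z) + hown z D + β * (251 / 500 + 9 / 10 * z) ∨
      f ≤ β * (251 / 500 + 9 / 10 * z) := by
  have hsum := h.sum
  have hv0 := h.vol
  obtain ⟨w0, w1, a0, b0, d0, hd1, -, -, -, -⟩ := h
  have hws : w ≤ a + b := by
    linarith
  have hb1 : b ≤ 11 / 20 := by linarith
  have hR : b * (251 / 500 + 9 / 10 * z) ≤ β * (251 / 500 + 9 / 10 * z) :=
    mul_le_mul_of_nonneg_right hb (by linarith)
  rcases le_or_gt a (1 + z) with h1 | h1
  · right
    have k := vl_mono_l w0.le a0.le b0.le hws h1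
    have k1 := vl_le_beta w0 (by linarith : 0 ≤ 1 + z) b0.le (by linarith) le_rfl
      (by linarith : b ≤ 1 + z)
    have k2 := p3a z0 b0.le hb1 (by linarith : z + b ≤ 1)
    have k3 := mul_le_mul_of_nonneg_left k2 b0.le
    have e : b * ((1 + z + b) ^ 2 / 4 - b ^ 2 / 3) = b * (1 + z + b) ^ 2 / 4 - b ^ 3 / 3 := by ring
    linarith
  obtain ⟨u, hu⟩ : ∃ u, u = a - 1 - z := ⟨_, rfl⟩
  have ea : a = 1 + (z + u) := by linarith
  subst ea
  have u0 : 0 < u := by linarith
  have hv := vl_ge_one w1 (by linarith) d0 (by linarith : w = 1 + (z + u) + b + d - 1)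
  rw [show 1 + (z + u) - 1 + b + d = z + u + b + d by ring] at hv
  have hs : z + u + b + d ≤ 1 := by linarith
  have hv1 : f = b * ((z + u + b + d) * (1 - d) - b ^ 2 / 3) := by
    rw [hv0, hv]
    ring
  clear hv hv0
  rcases le_or_gt ((z + u + b + d) * (1 - d) - b ^ 2 / 3) (251 / 500 + 9 / 10 * z) with h2 | h2
  · right
    rw [hv1]
    exact (mul_le_mul_of_nonneg_left h2 b0.le).trans hR
  left
  have hz2 : 9 / 10 * z ≤ 249 / 500 - d - b ^ 2 / 3 := by
    have := mul_le_mul_of_nonneg_right hs (by linarith : 0 ≤ 1 - d)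
    linarith
  have hb2 := sq_nonneg b
  have d1 : d ≤ 1 / 2 := by linarith
  have l1 : h0 (z + u) d - h0 z d ≤ d * (z + u - z) := h0_lip (by linarith)
  have l2 := LO_slope (s := 1 + z) (t := 1 + (z + u)) (by linarith) (by linarith)
  have l4 : net0 (1 + (z + u)) d = -LO (1 + (z + u)) + (h0 (z + u) d + 1 / 27000) := by
    rw [net0_ge (by linarith), show 1 + (z + u) - 1 = z + u by ring]
  obtain ⟨E, hEe⟩ : ∃ E, E = 251 / 500 + 9 / 10 * z - (z + b + d) * (1 - d) + b ^ 2 / 3 := ⟨_, rfl⟩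
  have huE : E < u * (1 - d) := by
    have e : (z + u + b + d) * (1 - d) = (z + b + d) * (1 - d) + u * (1 - d) := by ring
    linarith
  have hfE : f = b * (251 / 500 + 9 / 10 * z) + b * (u * (1 - d)) - b * E := by
    rw [hv1, hEe]
    ring
  have eu : (11 / 16 - d - b * (1 - d)) * u = 11 / 16 * u - d * u - b * (u * (1 - d)) := by ring
  have e1 : 11 / 16 * (1 + (z + u) - (1 + z)) = 11 / 16 * u := by ring
  have e2 : d * (z + u - z) = d * u := by ring
  rw [e1] at l2
  rw [e2] at l1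
  rcases le_total d b with h3 | h3
  · have l3 : h0 z d ≤ hown z D := by
      have m1 := hown_mono z0 (by linarith) d0 (by linarith : d ≤ D) hD.le
      have m2 := hown_eq z d
      have m3 := le_max_right (d - 1 / 2) 0
      linarith
    have key := c3key1 z0 d0 b0.le hb1 d1 (by linarith) hz2 hEe huE
    rw [eu] at key
    linarith
  · have l3 : h0 z d - z * (1 + z - d - b) * (d - b) ≤ hown z D := by
      have m1 := hown_mono z0 (by linarith) b0.le (by linarith : b ≤ D) hD.le
      have m2 := hown_eq z b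
      have m3 := le_max_right (b - 1 / 2) 0
      have m4 := h0_heights (z := z) h3
      linarith
    have key := c3key2 z0 d0 b0.le hb1 h3 d1 hz2 hEe huE
    rw [eu] at key
    linarith

/-- **(c4)** -/
theorem c4 {D : ℝ} (h : Fd f w a b d) (hd : d < 11 / 20) (hD : D < 11 / 20) (hb : b + 1 - w ≤ D) :
    f + net0 a d ≤ -57 / 125 + 7 / 10 * D := by
  obtain ⟨t, ht⟩ : ∃ t, t = w - b := ⟨_, rfl⟩
  have ea : a = 1 + t - d := by linarith [h.sum]
  have eb : b = w - t := by linarith
  have w1 := h.w1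
  have t0 : 9 / 20 < t := by linarith
  have t1 : t ≤ 1 := by linarith [h.b0]
  have tw : t ≤ w := by linarith [h.b0]
  have d0 := h.d0
  have k : vl w a b ≤ (1 + t - d) * (1 - t) - 1 / 3 + t ^ 3 / 3 + (max (d - t) 0) ^ 3 / 3 := by
    have n1 : max (w - a) 0 ≤ max (d - t) 0 := max_le_max (by linarith) le_rfl
    have n2 : (max (w - a) 0) ^ 3 ≤ (max (d - t) 0) ^ 3 := pow_le_pow_left₀ (le_max_right _ _) n1 3
    have n3 : vl w a b = w * a * b - w ^ 3 / 3 + (max (w - a) 0) ^ 3 / 3 + t ^ 3 / 3 := by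
      unfold vl
      rw [max_eq_left (by linarith : 0 ≤ w - b), ← ht]
      ring
    rw [n3, ea, eb]
    rw [ea] at n2
    have n4 : 0 ≤ (1 - w) * ((1 + t - d) * (1 + w - t) - (1 + w + w ^ 2) / 3) := by
      refine mul_nonneg (by linarith) ?_
      nlinarith [mul_nonneg (by linarith : 0 ≤ w - t) (by linarith : 0 ≤ t - 9 / 20),
        mul_nonneg (by linarith : 0 ≤ 1 - w) (by linarith : 0 ≤ w),
        mul_nonneg (by linarith : 0 ≤ w - t) (by linarith : 0 ≤ 11 / 20 - d)]
    nlinarith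
  have goal : (1 + t - d) * (1 - t) - 1 / 3 + t ^ 3 / 3 + (max (d - t) 0) ^ 3 / 3 + net0 a d ≤
      61 / 250 - 7 / 10 * t := by
    rw [ea]
    rcases lt_or_ge (1 + t - d) 1 with h1 | h1
    · rw [net0_lt h1, max_eq_left (by linarith : 0 ≤ d - t), LO_hi (by linarith) (by linarith)]
      have := p4a t0.le (by linarith : 0 ≤ d - t) (by linarith)
      nlinarith
    · rw [net0_ge h1, max_eq_right (by linarith : d - t ≤ 0)]
      obtain ⟨z, hz⟩ : ∃ z, z = t - d := ⟨_, rfl⟩
      have et : t = z + d := by linarith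
      subst et
      have z0 : 0 ≤ z := by linarith
      rw [show 1 + (z + d) - d - 1 = z by ring, show 1 + (z + d) - d = 1 + z by ring]
      rcases le_total z d with h2 | h2
      · rw [LO_hi (by linarith) (by linarith), h0_le h2]
        have := p4b z0 t0.le h2 hd.le
        nlinarith
      · rw [h0_ge h2]
        rcases le_or_gt z (1 / 2) with h3 | h3
        · rw [LO_hi (by linarith) (by linarith)]
          have := p4c d0 t0.le h2 h3
          linarith
        · rw [LO_top (by linarith)]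
          have := p4d d0 h3.le t1
          linarith
  rw [h.vol]
  linarith

end Pool.Agent.Helper59.TS
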