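import Pool.Agent.Helper59.TS.RowVol
import Pool.Agent.Helper65.TS.PClass

/-!
# T*: the volume of a row class in units of the grid `1/20`, from the structure `GR`
-/

set_option autoImplicit false

namespace Pool.Agent.Helper59.TS

open Pool.Agent.Helper65.TS Pool.Agent.Helper44.TS

/-- the part of `ownv` of the far cell -/
noncomputable def ownf (v : ℝ) : ℝ :=
  1200 * min (max (-v) 0) 13 + 120 * min (max (-v) 0) 13 ^ 2 - min (max (-v) 0) 13 ^ 3

theorem ownv_eq (v : ℝ) : ownv v = 4 * (max (-v) 0) ^ 3 + ownf v := by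
  unfold ownv ownf
  ring

theorem ownf_nonneg (v : ℝ) : 0 ≤ ownf v := by
  unfold ownf
  have h := ownm_nonneg (m := min (max (-v) 0) 13) (le_min (le_max_right _ _) (by norm_num))
    (min_le_right _ _)
  linarith

theorem ownf_bb {v w : ℝ} (w0 : 0 ≤ w) (w1 : w ≤ 13 / 20) (h : 20 * w ≤ -v) :
    96000 * bb w ≤ ownf v := by
  unfold ownf bb
  have h4 : 20 * w ≤ min (max (-v) 0) 13 := le_min (h.trans (le_max_left _ _)) (by linarith)
  have h5 := ownm_mono (by linarith : 0 ≤ 20 * w) h4 (min_le_right _ _)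
  have h6 : 96000 * (w / 4 + w ^ 2 / 2 - w ^ 3 / 12) =
      1200 * (20 * w) + 120 * (20 * w) ^ 2 - (20 * w) ^ 3 := by ring
  rw [h6]
  linarith

theorem gain_le {d p A : ℝ} (p0 : 0 ≤ p) (d1 : d ≤ 13 / 20) (h : Gain d p A) :
    96000 * A ≤ ownf (20 * (p - d)) := by
  rcases h with rfl | ⟨h1, h2⟩
  · have := ownf_nonneg (20 * (p - d))
    linarith
  · have := ownf_bb (v := 20 * (p - d)) (by linarith : 0 ≤ d - p) (by linarith) (by linarith)
    linarith

/-- the identity between the main cell and `Rw` -/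
theorem rw_mp {d p q r : ℝ} (s : p + q + r = 1 + d) :
    Rw (20 * (p - d)) (20 * (q - d)) (20 * (r - d)) = 96000 * mp d p q r +
      4 * (max (-(20 * (p - d))) 0) ^ 3 + 4 * (max (-(20 * (q - d))) 0) ^ 3 +
      4 * (max (-(20 * (r - d))) 0) ^ 3 +
      ownf (20 * (p - d)) + ownf (20 * (q - d)) + ownf (20 * (r - d)) := by
  have hr : r = 1 + d - p - q := by linarith
  unfold Rw mp
  rw [ownv_eq, ownv_eq, ownv_eq]
  generalize ownf (20 * (p - d)) = a1
  generalize ownf (20 * (q - d)) = a2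
  generalize ownf (20 * (r - d)) = a3
  generalize max (-(20 * (p - d))) 0 = b1
  generalize max (-(20 * (q - d))) 0 = b2
  generalize max (-(20 * (r - d))) 0 = b3
  subst hr
  ring

theorem cube_nonneg (v : ℝ) : 0 ≤ (max (-v) 0) ^ 3 := pow_nonneg (le_max_right _ _) 3

theorem cube_le {d p : ℝ} (d0 : 0 ≤ d) (p0 : p ≤ 0) :
    96000 * ((-p) ^ 3 / 3) ≤ 4 * (max (-(20 * (p - d))) 0) ^ 3 := by
  have h1 : 20 * -p ≤ max (-(20 * (p - d))) 0 := by
    refine le_trans ?_ (le_max_left _ _)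
    linarith
  have h2 := pow_le_pow_left₀ (by linarith : 0 ≤ 20 * -p) h1 3
  nlinarith

theorem rw_of_gm {V d p q r : ℝ} (d0 : 0 ≤ d) (s : p + q + r = 1 + d) (h : GM V d p q r) :
    96000 * V ≤ Rw (20 * (p - d)) (20 * (q - d)) (20 * (r - d)) := by
  obtain ⟨p0, q0, r0, a, a0, a1, a2, hV⟩ := h
  rw [rw_mp s]
  have h1 := cube_le d0 p0
  have h2 := ownf_bb (v := 20 * (p - d)) a0 a1 (by linarith)
  have h3 := cube_nonneg (20 * (q - d))
  have h4 := cube_nonneg (20 * (r - d))
  have h5 := ownf_nonneg (20 * (q - d))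
  have h6 := ownf_nonneg (20 * (r - d))
  linarith

theorem rw_swap (a b c : ℝ) : Rw a b c = Rw b a c := by
  unfold Rw
  ring

theorem rw_swap' (a b c : ℝ) : Rw a b c = Rw c a b := by
  unfold Rw
  ring

/-- **The volume of a row class, from `GR`.** -/
theorem rw_of_gr {V d p q r : ℝ} (h : GR V d p q r) :
    96000 * V ≤ Rw (20 * (p - d)) (20 * (q - d)) (20 * (r - d)) := by
  obtain ⟨d0, d1, s, p1, q1, r1, h | h | h | h⟩ := h
  · obtain ⟨p0, q0, r0, a, b, c, ga, gb, gc, hV⟩ := h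
    rw [rw_mp s]
    have h1 := gain_le p0 (by linarith) ga
    have h2 := gain_le q0 (by linarith) gb
    have h3 := gain_le r0 (by linarith) gc
    have h4 := cube_nonneg (20 * (p - d))
    have h5 := cube_nonneg (20 * (q - d))
    have h6 := cube_nonneg (20 * (r - d))
    linarith
  · exact rw_of_gm d0 s h
  · rw [rw_swap]
    exact rw_of_gm d0 (by linarith) h
  · rw [rw_swap']
    exact rw_of_gm d0 (by linarith) h

end Pool.Agent.Helper59.TS
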