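import Pool.Agent.Helper51.TS.OwnRow

/-!
# T*: the volume of a row class in units of the grid `1/20`

The class `x` of a row: the main cell `P x` of the height `d`, entries `u_m = -P x m`, own far cells of width at most
`13/20`. In terms of `v_m = 20 (u_m - d)`: `96000 * VV A x ≤ Rw v_j v_k v_l`.
-/

set_option autoImplicit false

namespace Pool.Agent.Helper59.TS

open Pool.Agent.Helper84.TS Pool.Agent.Helper23.TS Pool.Agent.Helper36.TS Pool.Agent.Helper44.TS
  Pool.Agent.Helper74.TS Pool.Agent.Helper90.TS Pool.Agent.Helper95.TS Pool.Agent.Helper51.TS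

/-- the term of one column: negative part of the entry and own far cell -/
noncomputable def ownv (v : ℝ) : ℝ :=
  4 * (max (-v) 0) ^ 3 + 1200 * min (max (-v) 0) 13 + 120 * min (max (-v) 0) 13 ^ 2
    - min (max (-v) 0) 13 ^ 3

/-- the volume of a row class; `e = 20 - (v₁ + v₂ + v₃) = 40 d` -/
noncomputable def Rw (v₁ v₂ v₃ : ℝ) : ℝ :=
  112000 - 6000 * (20 - (v₁ + v₂ + v₃)) + 120 * (20 - (v₁ + v₂ + v₃)) ^ 2
    - (20 - (v₁ + v₂ + v₃)) ^ 3 - 3 * (40 - (20 - (v₁ + v₂ + v₃))) * (v₁ ^ 2 + v₂ ^ 2 + v₃ ^ 2)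
    + ownv v₁ + ownv v₂ + ownv v₃

section

variable {d u f w : ℝ}

theorem ownm_nonneg {m : ℝ} (h0 : 0 ≤ m) (h1 : m ≤ 13) : 0 ≤ 1200 * m + 120 * m ^ 2 - m ^ 3 := by
  nlinarith [mul_nonneg h0 h0, mul_nonneg (mul_nonneg h0 h0) (sub_nonneg.2 h1)]

theorem ownm_mono {m n : ℝ} (h0 : 0 ≤ m) (h : m ≤ n) (h1 : n ≤ 13) :
    1200 * m + 120 * m ^ 2 - m ^ 3 ≤ 1200 * n + 120 * n ^ 2 - n ^ 3 := by
  have n0 : 0 ≤ n := h0.trans h
  have k1 : 0 ≤ (n - m) * (1200 + 120 * (n + m) - (n ^ 2 + n * m + m ^ 2)) := by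
    refine mul_nonneg (by linarith) ?_
    nlinarith [mul_nonneg h0 n0, mul_nonneg n0 (sub_nonneg.2 h1), mul_nonneg h0 (sub_nonneg.2 (h.trans h1)),
      mul_nonneg h0 (sub_nonneg.2 h1)]
  nlinarith

/-- one column of a row, without the quadratic term -/
theorem ownv_le (d0 : 0 ≤ d) (hu : u ≤ 1)
    (hf : f = 0 ∨ ∃ w, 0 ≤ w ∧ w ≤ 13 / 20 ∧ w ≤ d - u ∧ f ≤ w * (1 + w) ^ 2 / 4 - w ^ 3 / 3) :
    96000 * (sx 0 d u + f) ≤ -48000 * (1 - d) * u ^ 2 + ownv (20 * (u - d)) := by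
  rw [sx_of_le hu]
  have ht : max (-(20 * (u - d))) 0 = 20 * max (d - u) 0 := by
    rw [mul_max_of_nonneg _ _ (by norm_num : (0 : ℝ) ≤ 20), mul_zero]
    congr 1
    ring
  have h1 : max (-u) 0 ≤ max (d - u) 0 := max_le_max (by linarith) le_rfl
  have h0 : 0 ≤ max (-u) 0 := le_max_right _ _
  have h2 : (max (-u) 0) ^ 3 ≤ (max (d - u) 0) ^ 3 := pow_le_pow_left₀ h0 h1 3
  have ht0 : 0 ≤ max (d - u) 0 := le_max_right _ _
  have hm0 : 0 ≤ min (20 * max (d - u) 0) 13 := le_min (by linarith) (by norm_num)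
  have hm1 : min (20 * max (d - u) 0) 13 ≤ 13 := min_le_right _ _
  unfold ownv
  rw [ht]
  have h3 : 96000 * f ≤ 1200 * min (20 * max (d - u) 0) 13 + 120 * min (20 * max (d - u) 0) 13 ^ 2
      - min (20 * max (d - u) 0) 13 ^ 3 := by
    rcases hf with rfl | ⟨w, w0, w1, w2, w3⟩
    · have := ownm_nonneg hm0 hm1
      linarith
    · have h4 : 20 * w ≤ min (20 * max (d - u) 0) 13 := by
        refine le_min ?_ (by linarith)
        have := w2.trans (le_max_left (d - u) 0)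
        linarith
      have h5 := ownm_mono (by linarith : 0 ≤ 20 * w) h4 hm1
      have h6 : 96000 * (w * (1 + w) ^ 2 / 4 - w ^ 3 / 3) =
          1200 * (20 * w) + 120 * (20 * w) ^ 2 - (20 * w) ^ 3 := by ring
      linarith
  nlinarith

end

section

variable {A : Fin 4 → Fin 4 → Option (Fin 4 → ℝ)} {P : Fin 4 → Fin 4 → ℝ}

/-- one column of a row class -/
theorem row_col (h : OF A) {x m : Fin 4} (hx : A x x = some (P x)) (hm : m ≠ x)
    (hw : ∀ m H, m ≠ x → A x m = some H → 2 + H m ≤ 13 / 20) :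
    96000 * (sx 0 (P x x - 1) (-P x m) + fo x (A x m)) ≤
      -48000 * (1 - (P x x - 1)) * (-P x m) ^ 2 + ownv (20 * (-P x m - (P x x - 1))) := by
  obtain ⟨d0, -, lo, hi⟩ := mr_main h hx hm
  refine ownv_le d0 hi ?_
  rcases hH : A x m with _ | H
  · exact Or.inl rfl
  · obtain ⟨i, y, hn⟩ := exists_rest2 (Ne.symm hm)
    have o := own_data h hx hH hn (hw m H hm hH)
    refine Or.inr ⟨2 + H m, o.w0.le, o.w1, ?_, o.vol1⟩
    have := o.cap d0
    linarith

/-- **The volume of a row class.** -/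
theorem row_vol (h : OF A) {x j k l : Fin 4} (hn : [x, j, k, l].Nodup) (hx : A x x = some (P x))
    (hw : ∀ m H, m ≠ x → A x m = some H → 2 + H m ≤ 13 / 20) :
    96000 * VV A x ≤ Rw (20 * (-P x j - (P x x - 1))) (20 * (-P x k - (P x x - 1)))
      (20 * (-P x l - (P x x - 1))) := by
  have n := nodup_ne hn
  have cj := row_col h hx n.1 hw
  have ck := row_col h hx n.2.1 hw
  have cl := row_col h hx n.2.2 hw
  have hs := mr_sum h hn hx
  have e := row_sx 0 (h.cell x x _ hx) hn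
  have e2 : fo x (some (P x)) = fcl x (P x) := rfl
  rw [Helper44.TS.VV_eq hn, hx, e2, e]
  unfold Rw rowc
  have hsum : 20 * (-P x j - (P x x - 1)) + 20 * (-P x k - (P x x - 1)) +
      20 * (-P x l - (P x x - 1)) = 20 - 40 * (P x x - 1) := by linarith
  rw [hsum]
  have hl : -P x l = 1 + (P x x - 1) - -P x j - -P x k := by linarith
  generalize ownv (20 * (-P x j - (P x x - 1))) = oj at *
  generalize ownv (20 * (-P x k - (P x x - 1))) = ok at *
  generalize ownv (20 * (-P x l - (P x x - 1))) = ol at *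
  generalize fo x (A x j) = fj at *
  generalize fo x (A x k) = fk at *
  generalize fo x (A x l) = fl at *
  generalize sx 0 (P x x - 1) (-P x j) = sj at *
  generalize sx 0 (P x x - 1) (-P x k) = sk at *
  generalize sx 0 (P x x - 1) (-P x l) = sl at *
  generalize P x x - 1 = d at *
  generalize -P x j = a at *
  generalize -P x k = b at *
  generalize -P x l = c at *
  subst hl
  have key : 96000 * (7 / 6 - 3 / 2 * d + d ^ 2 / 2 - d ^ 3 / 6 - 0 * (1 + d))
      - 48000 * (1 - d) * a ^ 2 - 48000 * (1 - d) * b ^ 2 - 48000 * (1 - d) * (1 + d - a - b) ^ 2 =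
      112000 - 6000 * (20 - (20 - 40 * d)) + 120 * (20 - (20 - 40 * d)) ^ 2
        - (20 - (20 - 40 * d)) ^ 3 - 3 * (40 - (20 - (20 - 40 * d))) *
          ((20 * (a - d)) ^ 2 + (20 * (b - d)) ^ 2 + (20 * (1 + d - a - b - d)) ^ 2) := by
    ring
  linarith

/-- the range of the features of a row -/
theorem row_feat (h : OF A) {x m : Fin 4} (hx : A x x = some (P x)) (hm : m ≠ x) :
    -20 ≤ 20 * (-P x m - (P x x - 1)) ∧ 20 * (-P x m - (P x x - 1)) ≤ 20 := by
  obtain ⟨d0, -, lo, hi⟩ := mr_main h hx hm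
  constructor <;> linarith

/-- the sum of the features of a row -/
theorem row_feat_sum (h : OF A) {x j k l : Fin 4} (hn : [x, j, k, l].Nodup)
    (hx : A x x = some (P x)) :
    20 * (-P x j - (P x x - 1)) + 20 * (-P x k - (P x x - 1)) + 20 * (-P x l - (P x x - 1)) =
      20 - 40 * (P x x - 1) := by
  have := mr_sum h hn hx
  linarith

theorem row_feat_range (h : OF A) {x j k l : Fin 4} (hn : [x, j, k, l].Nodup)
    (hx : A x x = some (P x)) (hd : P x x - 1 ≤ 1 / 4) :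
    10 ≤ 20 * (-P x j - (P x x - 1)) + 20 * (-P x k - (P x x - 1)) + 20 * (-P x l - (P x x - 1)) ∧
    20 * (-P x j - (P x x - 1)) + 20 * (-P x k - (P x x - 1)) + 20 * (-P x l - (P x x - 1)) ≤ 20 := by
  have h1 := row_feat_sum h hn hx
  obtain ⟨d0, -, -, -⟩ := mr_main h hx (nodup_ne hn).1
  rw [h1]
  constructor <;> linarith

end

end Pool.Agent.Helper59.TS
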